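import Pool.Agent.H396R2.Msets

set_option autoImplicit false

open Finset

namespace Pool.Agent.H396R2

/-- number of pairs `(S, a)`, `S` a set of `g+1` elements, `a` an element, with `∑ S + a = n` -/
def rho (F : Finset ℕ) (g n : ℕ) : ℕ :=
  ((F.powersetCard (g + 1) ×ˢ F).filter (fun p => ∑ a ∈ p.1, a + p.2 = n)).card

/-- multisets of size `g+2` with sum `n` -/
def rM (F : Finset ℕ) (h n : ℕ) : ℕ := ((msets F h).filter (fun m => m.sum = n)).card

lemma rho_le (F : Finset ℕ) (g n : ℕ) : rho F g n ≤ (g + 2) * rM F (g + 2) n := by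
  classical
  set P0 := (F.powersetCard (g + 1) ×ˢ F).filter (fun p => ∑ a ∈ p.1, a + p.2 = n) with hP0
  set P : Finset (Multiset ℕ × ℕ) := P0.image (fun p => (p.1.val, p.2)) with hP
  have hcard : P0.card = P.card := by
    rw [hP, Finset.card_image_of_injOn]
    intro p _ p' _ h
    have h1 := congrArg Prod.fst h
    have h2 := congrArg Prod.snd h
    simp only at h1 h2
    exact Prod.ext (Finset.val_injective h1) h2
  have h1 := sum_cons_le P (g + 1) (by
    intro p hp
    rw [hP, Finset.mem_image] at hp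
    obtain ⟨q, hq, rfl⟩ := hp
    rw [hP0, Finset.mem_filter, Finset.mem_product, Finset.mem_powersetCard] at hq
    exact hq.1.1.2) (fun _ => 1) (fun _ => zero_le_one)
  rw [Finset.sum_const, Finset.sum_const, nsmul_eq_mul, nsmul_eq_mul, mul_one, mul_one] at h1
  have h2 : (P.image (fun p => p.2 ::ₘ p.1)).card ≤ rM F (g + 2) n := by
    unfold rM
    apply Finset.card_le_card
    intro M hM
    rw [Finset.mem_image] at hM
    obtain ⟨p, hp, rfl⟩ := hM
    rw [hP, Finset.mem_image] at hp
    obtain ⟨q, hq, rfl⟩ := hp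
    rw [hP0, Finset.mem_filter, Finset.mem_product, Finset.mem_powersetCard] at hq
    rw [Finset.mem_filter, mem_msets]
    refine ⟨⟨?_, ?_⟩, ?_⟩
    · rw [Multiset.card_cons]
      have := hq.1.1.2
      rw [Finset.card_def] at this
      show Multiset.card q.1.val + 1 = g + 2
      omega
    · intro a ha
      rw [Multiset.mem_cons] at ha
      rcases ha with rfl | ha
      · exact hq.1.2
      · exact hq.1.1.1 ha
    · rw [Multiset.sum_cons]
      have := hq.2
      have e : q.1.val.sum = ∑ a ∈ q.1, a := by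
        rw [Finset.sum_val]; rfl
      simp only
      omega
  have h3 : (P0.card : ℝ) ≤ ((g + 2 : ℕ) : ℝ) * (rM F (g + 2) n : ℝ) := by
    rw [hcard]
    calc (P.card : ℝ) ≤ (((g + 1 : ℕ) : ℝ) + 1) * ((P.image (fun p => p.2 ::ₘ p.1)).card : ℝ) := h1
      _ ≤ (((g + 1 : ℕ) : ℝ) + 1) * (rM F (g + 2) n : ℝ) := by
        apply mul_le_mul_of_nonneg_left _ (by positivity)
        exact_mod_cast h2
      _ = ((g + 2 : ℕ) : ℝ) * (rM F (g + 2) n : ℝ) := by push_cast; ring
  unfold rho
  exact_mod_cast h3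

/-- `h q(n) ≤ ρ(n)` -/
lemma le_rho (F : Finset ℕ) (g n : ℕ) :
    (g + 2) * ((F.powersetCard (g + 2)).filter (fun U => ∑ a ∈ U, a = n)).card ≤ rho F g n := by
  classical
  unfold rho
  set Q := (F.powersetCard (g + 2)).filter (fun U => ∑ a ∈ U, a = n) with hQ
  have h1 : (Q.sigma (fun U => U)).card = (g + 2) * Q.card := by
    rw [Finset.card_sigma]
    rw [Finset.sum_congr rfl (g := fun _ => g + 2)]
    · rw [Finset.sum_const, smul_eq_mul, mul_comm]
    · intro U hU
      rw [hQ, Finset.mem_filter, Finset.mem_powersetCard] at hU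
      exact hU.1.2
  rw [← h1]
  apply Finset.card_le_card_of_injOn (fun p => (p.1.erase p.2, p.2))
  · rintro ⟨U, a⟩ hp
    rw [Finset.mem_coe, Finset.mem_sigma, hQ, Finset.mem_filter, Finset.mem_powersetCard] at hp
    obtain ⟨⟨⟨hU1, hU2⟩, hU3⟩, ha⟩ := hp
    simp only at hU1 hU2 hU3 ha
    rw [Finset.mem_coe, Finset.mem_filter, Finset.mem_product, Finset.mem_powersetCard]
    refine ⟨⟨⟨(Finset.erase_subset _ _).trans hU1, ?_⟩, hU1 ha⟩, ?_⟩
    · simp only
      rw [Finset.card_erase_of_mem ha, hU2]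
      rfl
    · simp only
      rw [Finset.sum_erase_add _ _ ha]
      exact hU3
  · rintro ⟨U, a⟩ hp ⟨U', a'⟩ hp' h
    rw [Finset.mem_coe, Finset.mem_sigma] at hp hp'
    simp only [Prod.mk.injEq] at h hp hp'
    obtain ⟨h1, h2⟩ := h
    subst h2
    have : U = U' := by
      rw [← Finset.insert_erase hp.2, ← Finset.insert_erase hp'.2, h1]
    subst this
    rfl

/-- weighted counts of multisets -/
noncomputable def EE (F : Finset ℕ) (x : ℝ) (j : ℕ) : ℝ := ∑ m ∈ msets F j, x ^ (2 * m.sum)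

noncomputable def pp (F : Finset ℕ) (x : ℝ) : ℝ := ∑ a ∈ F, x ^ (2 * a)

lemma pp_mul_EE_le (F : Finset ℕ) (x : ℝ) (hx : 0 ≤ x) (j : ℕ) :
    pp F x * EE F x j ≤ (j + 1) * EE F x (j + 1) := by
  classical
  have h1 := sum_cons_le (msets F j ×ˢ F) j (by
    intro p hp
    rw [Finset.mem_product, mem_msets] at hp
    exact hp.1.1) (fun M => x ^ (2 * M.sum)) (fun M => by positivity)
  have h2 : ∑ p ∈ msets F j ×ˢ F, x ^ (2 * (p.2 ::ₘ p.1).sum) = pp F x * EE F x j := by
    unfold pp EE
    rw [Finset.sum_product_right, Finset.sum_mul_sum]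
    apply Finset.sum_congr rfl
    intro a _
    apply Finset.sum_congr rfl
    intro m _
    simp only
    rw [Multiset.sum_cons, mul_add, pow_add]
  rw [h2] at h1
  refine h1.trans ?_
  apply mul_le_mul_of_nonneg_left _ (by positivity)
  unfold EE
  apply Finset.sum_le_sum_of_subset_of_nonneg
  · intro M hM
    rw [Finset.mem_image] at hM
    obtain ⟨p, hp, rfl⟩ := hM
    rw [Finset.mem_product, mem_msets] at hp
    rw [mem_msets, Multiset.card_cons]
    refine ⟨by rw [hp.1.1], ?_⟩
    intro a ha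
    rw [Multiset.mem_cons] at ha
    rcases ha with rfl | ha
    · exact hp.2
    · exact hp.1.2 a ha
  · intro M _ _
    positivity

lemma geom_le (x : ℝ) (hx0 : 0 < x) (hx1 : x < 1) (N : ℕ) :
    ∑ n ∈ range N, x ^ (2 * n) ≤ (1 - x ^ 2)⁻¹ := by
  have hx2 : x ^ 2 < 1 := by nlinarith
  have h0 : 0 < 1 - x ^ 2 := by linarith
  simp_rw [pow_mul]
  have e : ∑ n ∈ range N, (x ^ 2) ^ n = (1 - (x ^ 2) ^ N) / (1 - x ^ 2) := by
    rw [geom_sum_eq (by linarith), ← neg_div_neg_eq]
    congr 1 <;> ring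
  rw [e, inv_eq_one_div]
  apply div_le_div_of_nonneg_right _ h0.le
  have : 0 ≤ (x ^ 2) ^ N := by positivity
  linarith

lemma EE_le (F : Finset ℕ) (x : ℝ) (hx0 : 0 < x) (hx1 : x < 1) (h K0 : ℕ)
    (hK : ∀ n, rM F h n ≤ K0) : EE F x h ≤ K0 * (1 - x ^ 2)⁻¹ := by
  classical
  unfold EE
  set N := (msets F h).sup (fun m => m.sum) + 1 with hN
  rw [← Finset.sum_fiberwise_of_maps_to (g := fun m : Multiset ℕ => m.sum) (t := range N)]
  · calc ∑ n ∈ range N, ∑ m ∈ msets F h with m.sum = n, x ^ (2 * m.sum)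
        ≤ ∑ n ∈ range N, (K0 : ℝ) * x ^ (2 * n) := by
          apply Finset.sum_le_sum
          intro n _
          rw [Finset.sum_congr rfl (g := fun _ => x ^ (2 * n))]
          · rw [Finset.sum_const, nsmul_eq_mul]
            apply mul_le_mul_of_nonneg_right _ (by positivity)
            exact_mod_cast hK n
          · intro m hm
            rw [Finset.mem_filter] at hm
            rw [hm.2]
      _ = (K0 : ℝ) * ∑ n ∈ range N, x ^ (2 * n) := by rw [Finset.mul_sum]
      _ ≤ _ := mul_le_mul_of_nonneg_left (geom_le x hx0 hx1 N) (by positivity)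
  · intro m hm
    rw [Finset.mem_range, hN]
    have := Finset.le_sup (f := fun m : Multiset ℕ => m.sum) hm
    omega

/-- windows for sets of size `g+1` contain few sums -/
lemma window_le (F : Finset ℕ) (g K0 L : ℕ) (hK : ∀ n, rM F (g + 2) n ≤ K0) (y i : ℕ) :
    ((F.powersetCard (g + 1)).filter (fun S => y ≤ ∑ a ∈ S, a + i ∧ ∑ a ∈ S, a + i < y + L)).card
      * (F.filter (fun a => a < L)).card ≤ (g + 2) * (2 * L * K0) := by
  classical
  set S0 := (F.powersetCard (g + 1)).filter
    (fun S => y ≤ ∑ a ∈ S, a + i ∧ ∑ a ∈ S, a + i < y + L) with hS0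
  set P : Finset (Multiset ℕ × ℕ) := (S0.image (fun S => S.val)) ×ˢ (F.filter (fun a => a < L))
    with hP
  have hcard : P.card = S0.card * (F.filter (fun a => a < L)).card := by
    rw [hP, Finset.card_product, Finset.card_image_of_injOn]
    intro p _ p' _ h
    exact Finset.val_injective h
  have h1 := sum_cons_le P (g + 1) (by
    intro p hp
    rw [hP, Finset.mem_product, Finset.mem_image] at hp
    obtain ⟨⟨S, hS, hS1⟩, _⟩ := hp
    rw [hS0, Finset.mem_filter, Finset.mem_powersetCard] at hS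
    rw [← hS1]
    exact hS.1.2) (fun _ => 1) (fun _ => zero_le_one)
  rw [Finset.sum_const, Finset.sum_const, nsmul_eq_mul, nsmul_eq_mul, mul_one, mul_one] at h1
  have h2 : (P.image (fun p => p.2 ::ₘ p.1)).card ≤ 2 * L * K0 := by
    have hsub : P.image (fun p => p.2 ::ₘ p.1) ⊆
        (Finset.Ico y (y + 2 * L)).biUnion
          (fun n => (msets F (g + 2)).filter (fun M => M.sum + i = n)) := by
      intro M hM
      rw [Finset.mem_image] at hM
      obtain ⟨p, hp, rfl⟩ := hM
      rw [hP, Finset.mem_product, Finset.mem_image, Finset.mem_filter] at hp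
      obtain ⟨⟨S, hS, hS1⟩, ha1, ha2⟩ := hp
      rw [hS0, Finset.mem_filter, Finset.mem_powersetCard] at hS
      have e : p.1.sum = ∑ a ∈ S, a := by
        rw [← hS1, Finset.sum_val]; rfl
      rw [Finset.mem_biUnion]
      refine ⟨(p.2 ::ₘ p.1).sum + i, ?_, ?_⟩
      · rw [Finset.mem_Ico, Multiset.sum_cons, e]
        omega
      · rw [Finset.mem_filter, mem_msets]
        refine ⟨⟨?_, ?_⟩, rfl⟩
        · rw [Multiset.card_cons, ← hS1]
          have := hS.1.2
          rw [Finset.card_def] at this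
          omega
        · intro a ha
          rw [Multiset.mem_cons] at ha
          rcases ha with rfl | ha
          · exact ha1
          · rw [← hS1] at ha
            exact hS.1.1 ha
    refine (Finset.card_le_card hsub).trans ?_
    refine (Finset.card_biUnion_le_card_mul _ _ K0 ?_).trans ?_
    · intro n _
      by_cases hn : i ≤ n
      · have e : (msets F (g + 2)).filter (fun M => M.sum + i = n)
            = (msets F (g + 2)).filter (fun M => M.sum = n - i) := by
          ext M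
          rw [Finset.mem_filter, Finset.mem_filter]
          constructor
          · rintro ⟨a, b⟩; exact ⟨a, by omega⟩
          · rintro ⟨a, b⟩; exact ⟨a, by omega⟩
        rw [e]
        exact hK (n - i)
      · have e : (msets F (g + 2)).filter (fun M => M.sum + i = n) = ∅ := by
          rw [Finset.filter_eq_empty_iff]
          intro M _
          omega
        rw [e]
        simp
    · rw [Nat.card_Ico]
      have : y + 2 * L - y = 2 * L := by omega
      rw [this]
  rw [← hcard]
  have h3 : (P.card : ℝ) ≤ ((g + 2) * (2 * L * K0) : ℕ) := by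
    calc (P.card : ℝ) ≤ (((g + 1 : ℕ) : ℝ) + 1) * ((P.image (fun p => p.2 ::ₘ p.1)).card : ℝ) := h1
      _ ≤ (((g + 1 : ℕ) : ℝ) + 1) * ((2 * L * K0 : ℕ) : ℝ) := by
        apply mul_le_mul_of_nonneg_left _ (by positivity)
        exact_mod_cast h2
      _ = ((g + 2) * (2 * L * K0) : ℕ) := by push_cast; ring
  exact_mod_cast h3

/-- weighted count of sets -/
noncomputable def ee (F : Finset ℕ) (x : ℝ) (j : ℕ) : ℝ :=
  ∑ Z ∈ F.powersetCard j, x ^ (2 * ∑ a ∈ Z, a)

lemma ee_nonneg (F : Finset ℕ) (x : ℝ) (hx : 0 ≤ x) (j : ℕ) : 0 ≤ ee F x j := by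
  unfold ee
  positivity

lemma ee_succ_le (F : Finset ℕ) (x : ℝ) (hx : 0 ≤ x) (j : ℕ) :
    (j + 1 : ℝ) * ee F x (j + 1) ≤ pp F x * ee F x j := by
  classical
  unfold ee pp
  have h1 : (j + 1 : ℝ) * ∑ Z ∈ F.powersetCard (j + 1), x ^ (2 * ∑ a ∈ Z, a)
      = ∑ q ∈ (F.powersetCard (j + 1)).sigma (fun U => U), x ^ (2 * ∑ a ∈ q.1, a) := by
    rw [Finset.sum_sigma, Finset.mul_sum]
    apply Finset.sum_congr rfl
    intro U hU
    rw [Finset.mem_powersetCard] at hU
    simp only
    rw [Finset.sum_const, hU.2, nsmul_eq_mul]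
    push_cast
    ring
  rw [h1, Finset.sum_mul_sum, ← Finset.sum_product']
  have hinj : Set.InjOn (fun q : (_ : Finset ℕ) × ℕ => (q.2, q.1.erase q.2))
      ((F.powersetCard (j + 1)).sigma (fun U => U) : Finset ((_ : Finset ℕ) × ℕ)) := by
    rintro ⟨U, a⟩ hp ⟨U', a'⟩ hp' h
    rw [Finset.mem_coe, Finset.mem_sigma] at hp hp'
    simp only [Prod.mk.injEq] at h hp hp'
    obtain ⟨h2, h1⟩ := h
    subst h2
    have : U = U' := by
      rw [← Finset.insert_erase hp.2, ← Finset.insert_erase hp'.2, h1]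
    subst this
    rfl
  have h2 : ∑ q ∈ (F.powersetCard (j + 1)).sigma (fun U => U), x ^ (2 * ∑ a ∈ q.1, a)
      = ∑ r ∈ ((F.powersetCard (j + 1)).sigma (fun U => U)).image
        (fun q : (_ : Finset ℕ) × ℕ => (q.2, q.1.erase q.2)),
          x ^ (2 * r.1) * x ^ (2 * ∑ a ∈ r.2, a) := by
    rw [Finset.sum_image hinj]
    apply Finset.sum_congr rfl
    rintro ⟨U, a⟩ hp
    rw [Finset.mem_sigma] at hp
    simp only at hp ⊢
    rw [← pow_add, ← mul_add, Finset.add_sum_erase _ (fun a => a) hp.2]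
  rw [h2]
  apply Finset.sum_le_sum_of_subset_of_nonneg
  · intro r hr
    rw [Finset.mem_image] at hr
    obtain ⟨⟨U, a⟩, hp, rfl⟩ := hr
    rw [Finset.mem_sigma, Finset.mem_powersetCard] at hp
    simp only at hp
    rw [Finset.mem_product, Finset.mem_powersetCard]
    refine ⟨hp.1.1 hp.2, (Finset.erase_subset _ _).trans hp.1.1, ?_⟩
    simp only
    rw [Finset.card_erase_of_mem hp.2, hp.1.2]
    rfl
  · intro r _ _
    positivity

end Pool.Agent.H396R2
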