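import Mathlib

set_option autoImplicit false

open Finset

namespace Pool.Agent.H396R2

section Energy

variable {G : Type*} [AddCommGroup G] [Fintype G]

lemma sum_shift (u : G → ℝ) (g : G) : ∑ k, u (k + g) = ∑ k, u k :=
  Fintype.sum_equiv (Equiv.addRight g) _ _ (fun _ => rfl)

lemma win_sq_le (L : ℕ) (g : ℕ → G) (u : G → ℝ) :
    ∑ k, (∑ i ∈ range L, u (k + g i)) ^ 2 ≤ (L : ℝ) ^ 2 * ∑ k, (u k) ^ 2 := by
  calc ∑ k, (∑ i ∈ range L, u (k + g i)) ^ 2
      ≤ ∑ k, (L : ℝ) * ∑ i ∈ range L, (u (k + g i)) ^ 2 := by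
        apply Finset.sum_le_sum
        intro k _
        have := sq_sum_le_card_mul_sum_sq (s := range L) (f := fun i => u (k + g i))
        simpa using this
    _ = (L : ℝ) * ∑ i ∈ range L, ∑ k, (u (k + g i)) ^ 2 := by
        rw [← Finset.mul_sum, Finset.sum_comm]
    _ = (L : ℝ) * ∑ i ∈ range L, ∑ k, (u k) ^ 2 := by
        congr 1
        apply Finset.sum_congr rfl
        intro i _
        exact sum_shift (fun k => (u k) ^ 2) (g i)
    _ = (L : ℝ) ^ 2 * ∑ k, (u k) ^ 2 := by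
        rw [Finset.sum_const, card_range, nsmul_eq_mul]
        ring

/-- the basic lower bound for the high frequency energy of `t + u`, `t, u ≥ 0` -/
lemma energy_lower (L : ℕ) (g : ℕ → G) (t u : G → ℝ) (ht : ∀ k, 0 ≤ t k) (hu : ∀ k, 0 ≤ u k) :
    (L : ℝ) ^ 2 * ∑ k, (t k) ^ 2
      - 2 * ∑ m, t m * ∑ i ∈ range L, ∑ i' ∈ range L, (t (m + (g i' - g i)) + u (m + (g i' - g i)))
      ≤ (L : ℝ) ^ 2 * ∑ k, (t k + u k) ^ 2
        - ∑ k, (∑ i ∈ range L, (t (k + g i) + u (k + g i))) ^ 2 := by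
  have h1 : ∑ m, t m * ∑ i ∈ range L, ∑ i' ∈ range L,
      (t (m + (g i' - g i)) + u (m + (g i' - g i)))
      = ∑ k, (∑ i ∈ range L, t (k + g i)) * (∑ i' ∈ range L, (t (k + g i') + u (k + g i'))) := by
    have h2 : ∀ k, (∑ i ∈ range L, t (k + g i)) * (∑ i' ∈ range L, (t (k + g i') + u (k + g i')))
        = ∑ i ∈ range L, t (k + g i) * ∑ i' ∈ range L, (t (k + g i') + u (k + g i')) := by
      intro k
      rw [Finset.sum_mul]
    simp_rw [h2]
    rw [Finset.sum_comm]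
    have h3 : ∀ m, t m * ∑ i ∈ range L, ∑ i' ∈ range L,
        (t (m + (g i' - g i)) + u (m + (g i' - g i)))
        = ∑ i ∈ range L, t m * ∑ i' ∈ range L,
        (t (m + (g i' - g i)) + u (m + (g i' - g i))) := by
      intro m
      rw [Finset.mul_sum]
    simp_rw [h3]
    rw [Finset.sum_comm]
    apply Finset.sum_congr rfl
    intro i _
    rw [← sum_shift (fun m => t m * ∑ i' ∈ range L,
        (t (m + (g i' - g i)) + u (m + (g i' - g i)))) (g i)]
    apply Finset.sum_congr rfl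
    intro k _
    congr 1
    apply Finset.sum_congr rfl
    intro i' _
    have : k + g i + (g i' - g i) = k + g i' := by abel
    rw [this]
  rw [h1]
  have h4 : ∑ k, (∑ i ∈ range L, (t (k + g i) + u (k + g i))) ^ 2
      ≤ 2 * ∑ k, (∑ i ∈ range L, t (k + g i)) * (∑ i' ∈ range L, (t (k + g i') + u (k + g i')))
        + ∑ k, (∑ i ∈ range L, u (k + g i)) ^ 2 := by
    rw [Finset.mul_sum, ← Finset.sum_add_distrib]
    apply Finset.sum_le_sum
    intro k _
    have e : ∑ i ∈ range L, (t (k + g i) + u (k + g i))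
        = (∑ i ∈ range L, t (k + g i)) + ∑ i ∈ range L, u (k + g i) := Finset.sum_add_distrib
    rw [e]
    have a1 : 0 ≤ ∑ i ∈ range L, t (k + g i) := Finset.sum_nonneg (fun i _ => ht _)
    have a2 : 0 ≤ ∑ i ∈ range L, u (k + g i) := Finset.sum_nonneg (fun i _ => hu _)
    nlinarith [mul_nonneg a1 a2, mul_nonneg a1 a1]
  have h5 := win_sq_le L g u
  have h6 : ∑ k, (t k) ^ 2 + ∑ k, (u k) ^ 2 ≤ ∑ k, (t k + u k) ^ 2 := by
    rw [← Finset.sum_add_distrib]
    apply Finset.sum_le_sum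
    intro k _
    nlinarith [mul_nonneg (ht k) (hu k)]
  have h7 : (0 : ℝ) ≤ (L : ℝ) ^ 2 := by positivity
  nlinarith [mul_le_mul_of_nonneg_left h6 h7]

end Energy

section Corr

variable {G : Type*} [AddCommGroup G] [Fintype G] [DecidableEq G]

/-- The function `k ↦ ∑_{ω, z ω = k} c ω`. -/
def push {Ω : Type*} (P : Finset Ω) (z : Ω → G) (c : Ω → ℝ) (k : G) : ℝ :=
  ∑ ω ∈ P, if z ω = k then c ω else 0

lemma push_nonneg {Ω : Type*} (P : Finset Ω) (z : Ω → G) (c : Ω → ℝ) (hc : ∀ ω ∈ P, 0 ≤ c ω)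
    (k : G) : 0 ≤ push P z c k := by
  unfold push
  apply Finset.sum_nonneg
  intro ω hω
  split_ifs
  · exact hc ω hω
  · exact le_rfl

lemma sum_push_mul {Ω : Type*} (P : Finset Ω) (z : Ω → G) (c : Ω → ℝ) (F : G → ℝ) :
    ∑ k, push P z c k * F k = ∑ ω ∈ P, c ω * F (z ω) := by
  unfold push
  simp_rw [Finset.sum_mul]
  rw [Finset.sum_comm]
  apply Finset.sum_congr rfl
  intro ω _
  simp [ite_mul]

lemma corr_push {Ω : Type*} (P : Finset Ω) (z : Ω → G) (c : Ω → ℝ) (j : G) :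
    ∑ k, push P z c k * push P z c (k + j)
      = ∑ ω ∈ P, ∑ ω' ∈ P, if z ω' = z ω + j then c ω * c ω' else 0 := by
  rw [sum_push_mul]
  apply Finset.sum_congr rfl
  intro ω _
  unfold push
  rw [Finset.mul_sum]
  apply Finset.sum_congr rfl
  intro ω' _
  split_ifs <;> simp

/-- The two functions `p * f` and `p * f̌` have the same autocorrelations. -/
lemma corr_eq {Ω₁ Ω₂ : Type*} (P : Finset Ω₁) (Q : Finset Ω₂) (z : Ω₁ → G) (y : Ω₂ → G)
    (c : Ω₁ → ℝ) (d : Ω₂ → ℝ) (j : G) :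
    ∑ k, push (P ×ˢ Q) (fun ω => z ω.1 + y ω.2) (fun ω => c ω.1 * d ω.2) k
        * push (P ×ˢ Q) (fun ω => z ω.1 + y ω.2) (fun ω => c ω.1 * d ω.2) (k + j)
      = ∑ k, push (P ×ˢ Q) (fun ω => z ω.1 - y ω.2) (fun ω => c ω.1 * d ω.2) k
        * push (P ×ˢ Q) (fun ω => z ω.1 - y ω.2) (fun ω => c ω.1 * d ω.2) (k + j) := by
  rw [corr_push, corr_push]
  simp_rw [Finset.sum_product]
  apply Finset.sum_congr rfl
  intro a _
  -- ∑ b ∑ a' ∑ b' : swap b and b'
  have e1 : ∀ (F : Ω₂ → Ω₁ → Ω₂ → ℝ), ∑ b ∈ Q, ∑ a' ∈ P, ∑ b' ∈ Q, F b a' b'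
      = ∑ b ∈ Q, ∑ a' ∈ P, ∑ b' ∈ Q, F b' a' b := by
    intro F
    rw [Finset.sum_comm]
    rw [Finset.sum_comm (s := Q) (t := P)]
    apply Finset.sum_congr rfl
    intro a' _
    exact Finset.sum_comm
  rw [e1]
  apply Finset.sum_congr rfl
  intro b _
  apply Finset.sum_congr rfl
  intro a' _
  apply Finset.sum_congr rfl
  intro b' _
  have h1 : (z a' + y b = z a + y b' + j) ↔ (z a' - y b' = z a - y b + j) := by
    constructor
    · intro h
      have : z a' = z a + y b' + j - y b := by rw [← h]; abel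
      rw [this]; abel
    · intro h
      have : z a' = z a - y b + j + y b' := by rw [← h]; abel
      rw [this]; abel
  by_cases h : z a' + y b = z a + y b' + j
  · rw [if_pos h, if_pos (h1.1 h)]; ring
  · rw [if_neg h, if_neg (fun h' => h (h1.2 h'))]

lemma sum_push_sq_ge {Ω : Type*} (P : Finset Ω) (z : Ω → G) (c : Ω → ℝ)
    (hc : ∀ ω ∈ P, 0 ≤ c ω) :
    ∑ ω ∈ P, (c ω) ^ 2 ≤ ∑ k, (push P z c k) ^ 2 := by
  have h : ∑ k, (push P z c k) ^ 2 = ∑ ω ∈ P, c ω * push P z c (z ω) := by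
    rw [← sum_push_mul]
    apply Finset.sum_congr rfl
    intro k _
    ring
  rw [h]
  apply Finset.sum_le_sum
  intro ω hω
  rw [pow_two]
  apply mul_le_mul_of_nonneg_left _ (hc ω hω)
  unfold push
  have := Finset.single_le_sum (f := fun ω' => if z ω' = z ω then c ω' else 0) (s := P)
    (fun ω' hω' => by split_ifs; exact hc ω' hω'; exact le_rfl) hω
  simpa using this

end Corr

end Pool.Agent.H396R2
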