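import Pool.Agent.H396R2.Star

set_option autoImplicit false

open Finset

namespace Pool.Agent.H396R2

lemma abel_id (v c : ℕ → ℝ) (N : ℕ) :
    ∑ n ∈ range (N + 1), v n * c n
      = v N * ∑ n ∈ range (N + 1), c n
        + ∑ n ∈ range N, (v n - v (n + 1)) * ∑ m ∈ range (n + 1), c m := by
  induction N with
  | zero => simp
  | succ N ih =>
    rw [Finset.sum_range_succ, ih, Finset.sum_range_succ (fun n => (v n - v (n + 1)) * _) N,
      Finset.sum_range_succ c (N + 1)]
    ring

lemma abel_ineq (v c : ℕ → ℝ) (hv : ∀ n, v (n + 1) ≤ v n) (hv0 : ∀ n, 0 ≤ v n) (C : ℝ)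
    (hC : ∀ N, ∑ n ∈ range N, c n ≤ C) (N : ℕ) :
    ∑ n ∈ range (N + 1), v n * c n ≤ C * v 0 := by
  rw [abel_id]
  have h1 : v N * ∑ n ∈ range (N + 1), c n ≤ v N * C := mul_le_mul_of_nonneg_left (hC _) (hv0 N)
  have h2 : ∑ n ∈ range N, (v n - v (n + 1)) * ∑ m ∈ range (n + 1), c m
      ≤ ∑ n ∈ range N, (v n - v (n + 1)) * C := by
    apply Finset.sum_le_sum
    intro n _
    apply mul_le_mul_of_nonneg_left (hC _)
    linarith [hv n]
  rw [← Finset.sum_mul, Finset.sum_range_sub'] at h2
  nlinarith

/-- decomposition of the multiset count into sets and the rest -/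
lemma sum_rM_le (F : Finset ℕ) (x : ℝ) (hx0 : 0 < x) (hx1 : x ≤ 1) (g N : ℕ) :
    (g + 2 : ℝ) * ∑ n ∈ range N, x ^ (2 * n) * (rM F (g + 2) n : ℝ)
      ≤ ∑ n ∈ range N, (rho F g n : ℝ) * x ^ (2 * n) + (g + 2) * ((g + 1) * EE F x (g + 1)) := by
  classical
  -- pointwise: rM = #nodup + #non nodup
  have h1 : ∀ n, rM F (g + 2) n = ((F.powersetCard (g + 2)).filter (fun U => ∑ a ∈ U, a = n)).card
      + ((msets F (g + 2)).filter (fun m => ¬ m.Nodup ∧ m.sum = n)).card := by
    intro n
    unfold rM
    rw [← Finset.card_filter_add_card_filter_not (s := (msets F (g + 2)).filter (fun m => m.sum = n))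
      (fun m => m.Nodup)]
    congr 1
    · symm
      apply Finset.card_bij (fun U _ => U.val)
      · intro U hU
        rw [Finset.mem_filter, Finset.mem_powersetCard] at hU
        rw [Finset.mem_filter, Finset.mem_filter, mem_msets]
        refine ⟨⟨⟨hU.1.2, fun a ha => hU.1.1 ha⟩, ?_⟩, U.nodup⟩
        rw [Finset.sum_val]
        exact hU.2
      · intro U _ U' _ h
        exact Finset.val_injective h
      · intro m hm
        rw [Finset.mem_filter, Finset.mem_filter, mem_msets] at hm
        refine ⟨⟨m, hm.2⟩, ?_, rfl⟩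
        rw [Finset.mem_filter, Finset.mem_powersetCard]
        refine ⟨⟨fun a ha => hm.1.1.2 a ha, hm.1.1.1⟩, ?_⟩
        have e := Finset.sum_val (⟨m, hm.2⟩ : Finset ℕ)
        exact e.symm.trans hm.1.2
    · congr 1
      ext m
      simp only [Finset.mem_filter]
      tauto
  have h2 : ∑ n ∈ range N, x ^ (2 * n) *
      (((msets F (g + 2)).filter (fun m => ¬ m.Nodup ∧ m.sum = n)).card : ℝ)
      ≤ (g + 1) * EE F x (g + 1) := by
    -- the sum over non-nodup multisets
    have h3 : ∑ n ∈ range N, x ^ (2 * n) *
      (((msets F (g + 2)).filter (fun m => ¬ m.Nodup ∧ m.sum = n)).card : ℝ)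
      ≤ ∑ m ∈ (msets F (g + 2)).filter (fun m => ¬ m.Nodup), x ^ (2 * m.sum) := by
      have h4 : ∀ n, x ^ (2 * n) *
          (((msets F (g + 2)).filter (fun m => ¬ m.Nodup ∧ m.sum = n)).card : ℝ)
          = ∑ m ∈ ((msets F (g + 2)).filter (fun m => ¬ m.Nodup)) with m.sum = n,
            x ^ (2 * m.sum) := by
        intro n
        rw [Finset.filter_filter]
        rw [Finset.sum_congr rfl (g := fun _ => x ^ (2 * n))]
        · rw [Finset.sum_const, nsmul_eq_mul, mul_comm]
        · intro m hm
          rw [Finset.mem_filter] at hm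
          rw [hm.2.2]
      simp_rw [h4]
      rw [← Finset.sum_biUnion]
      · apply Finset.sum_le_sum_of_subset_of_nonneg
        · intro m hm
          rw [Finset.mem_biUnion] at hm
          obtain ⟨n, _, hm⟩ := hm
          exact (Finset.mem_filter.1 hm).1
        · intro m _ _
          positivity
      · intro a _ b _ hab
        rw [Function.onFun, Finset.disjoint_left]
        intro m hma hmb
        rw [Finset.mem_filter] at hma hmb
        exact hab (hma.2.symm.trans hmb.2)
    refine h3.trans ?_
    -- map (m, a) with a ∈ m to a ::ₘ m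
    have h5 : (msets F (g + 2)).filter (fun m => ¬ m.Nodup) ⊆
        ((msets F (g + 1)).sigma (fun m => m.toFinset)).image
          (fun q : (_ : Multiset ℕ) × ℕ => q.2 ::ₘ q.1) := by
      intro M hM
      rw [Finset.mem_filter, mem_msets] at hM
      obtain ⟨⟨hM1, hM2⟩, hM3⟩ := hM
      rw [Multiset.nodup_iff_count_le_one] at hM3
      push Not at hM3
      obtain ⟨a, ha⟩ := hM3
      rw [Finset.mem_image]
      have haM : a ∈ M := Multiset.count_pos.1 (by omega)
      refine ⟨⟨M.erase a, a⟩, ?_, Multiset.cons_erase haM⟩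
      rw [Finset.mem_sigma, mem_msets, Multiset.mem_toFinset]
      refine ⟨⟨?_, ?_⟩, ?_⟩
      · simp only
        rw [Multiset.card_erase_of_mem haM, hM1]
        rfl
      · intro b hb
        exact hM2 b (Multiset.mem_of_mem_erase hb)
      · simp only
        rw [← Multiset.count_pos, Multiset.count_erase_self]
        omega
    calc ∑ m ∈ (msets F (g + 2)).filter (fun m => ¬ m.Nodup), x ^ (2 * m.sum)
        ≤ ∑ M ∈ ((msets F (g + 1)).sigma (fun m => m.toFinset)).image
          (fun q : (_ : Multiset ℕ) × ℕ => q.2 ::ₘ q.1), x ^ (2 * M.sum) := by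
          apply Finset.sum_le_sum_of_subset_of_nonneg h5
          intro M _ _
          positivity
      _ ≤ ∑ q ∈ (msets F (g + 1)).sigma (fun m => m.toFinset), x ^ (2 * (q.2 ::ₘ q.1).sum) := by
          apply Finset.sum_image_le_of_nonneg
          intro q _
          positivity
      _ ≤ ∑ q ∈ (msets F (g + 1)).sigma (fun m => m.toFinset), x ^ (2 * q.1.sum) := by
          apply Finset.sum_le_sum
          intro q _
          apply pow_le_pow_of_le_one hx0.le hx1
          rw [Multiset.sum_cons]
          omega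
      _ = ∑ m ∈ msets F (g + 1), (m.toFinset.card : ℝ) * x ^ (2 * m.sum) := by
          rw [Finset.sum_sigma]
          apply Finset.sum_congr rfl
          intro m _
          simp only
          rw [Finset.sum_const, nsmul_eq_mul]
      _ ≤ ∑ m ∈ msets F (g + 1), ((g : ℝ) + 1) * x ^ (2 * m.sum) := by
          apply Finset.sum_le_sum
          intro m hm
          rw [mem_msets] at hm
          apply mul_le_mul_of_nonneg_right _ (by positivity)
          have := Multiset.toFinset_card_le m
          rw [hm.1] at this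
          exact_mod_cast this
      _ = (g + 1) * EE F x (g + 1) := by
          unfold EE
          rw [Finset.mul_sum]
  calc (g + 2 : ℝ) * ∑ n ∈ range N, x ^ (2 * n) * (rM F (g + 2) n : ℝ)
      = ∑ n ∈ range N, ((g + 2 : ℝ) * (((F.powersetCard (g + 2)).filter
          (fun U => ∑ a ∈ U, a = n)).card : ℝ)) * x ^ (2 * n)
        + (g + 2) * ∑ n ∈ range N, x ^ (2 * n) *
          (((msets F (g + 2)).filter (fun m => ¬ m.Nodup ∧ m.sum = n)).card : ℝ) := by
        rw [Finset.mul_sum, Finset.mul_sum, ← Finset.sum_add_distrib]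
        apply Finset.sum_congr rfl
        intro n _
        rw [h1 n]
        push_cast
        ring
    _ ≤ ∑ n ∈ range N, (rho F g n : ℝ) * x ^ (2 * n) + (g + 2) * ((g + 1) * EE F x (g + 1)) := by
        apply add_le_add
        · apply Finset.sum_le_sum
          intro n _
          apply mul_le_mul_of_nonneg_right _ (by positivity)
          have := le_rho F g n
          exact_mod_cast this
        · exact mul_le_mul_of_nonneg_left h2 (by positivity)

end Pool.Agent.H396R2
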