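import Pool.Agent.H396R2.Final

set_option autoImplicit false

open Finset

namespace Pool.Agent.H396R2

lemma final_alg (hh K l K0 M Y S2 R1 E0 P M0 E1 N1 c1 δ ε Lr : ℝ)
    (hhh : 2 ≤ hh) (hK : 0 ≤ K) (hl : 0 ≤ l) (hK0 : 1 ≤ K0) (hM : 0 < M) (hY0 : 0 ≤ Y)
    (hS2 : 0 ≤ S2) (hP : 0 < P)
    (hstar : Lr * (hh * K0) ≤ Y →
      (hh - 1) * ((1 - ε) ^ 2 - ε) * Y ≤ S2 - M⁻¹ * (Y - Lr * (hh * K0)) ^ 2)
    (hS2u : S2 ≤ hh ^ 2 * ((K + l) * R1 - K * l * M0 + K * l * E1) + c1)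
    (hR1 : hh * R1 ≤ Y + hh * ((hh - 1) * E0)) (hE0 : P * E0 ≤ hh * (K0 * M))
    (hM0 : M - 1 ≤ M0) (hE1 : E1 ≤ δ * M + N1) (hYu : Y ≤ hh * K0 * M)
    (hP1 : (K + l) * (hh - 1) * hh * K0 ≤ ε * P)
    (hM1 : hh ^ 2 * (K * l) * (1 + N1) + c1 ≤ ε * hh ^ 2 * M)
    (hL0 : 0 ≤ Lr) (hLK : Lr * K0 ≤ ε * M) (hε0 : 0 < ε) (hε1 : ε ≤ 1 / 4)
    (hδ : K * l * (1 - δ) - (K + l - (hh - 1) / hh) ^ 2 / 4 > ε * (2 + 5 * K0 + K + l)) :
    False := by
  have hh0 : 0 < hh := by linarith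
  obtain ⟨y, hy⟩ : ∃ y, y = Y / (hh * M) := ⟨_, rfl⟩
  have hYy : Y = hh * M * y := by rw [hy]; field_simp
  have hy0 : 0 ≤ y := by rw [hy]; positivity
  have hyK : y ≤ K0 := by
    rw [hy, div_le_iff₀ (by positivity)]
    linarith
  obtain ⟨lam, hlam⟩ : ∃ lam, lam = Lr * K0 / M := ⟨_, rfl⟩
  have hlam0 : 0 ≤ lam := by rw [hlam]; positivity
  have hlam1 : lam ≤ ε := by rw [hlam, div_le_iff₀ hM]; exact hLK
  have hLM : Lr * K0 = lam * M := by rw [hlam]; field_simp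
  -- upper bound on S2
  have hE0' : E0 ≤ hh * (K0 * M) / P := by
    rw [le_div_iff₀ hP]; linarith
  have e1 : hh ^ 2 * ((K + l) * R1) ≤ hh ^ 2 * M * ((K + l) * y + ε) := by
    have a1 : hh ^ 2 * ((K + l) * R1) = hh * (K + l) * (hh * R1) := by ring
    have a2 : hh * (K + l) * (hh * R1) ≤ hh * (K + l) * (Y + hh * ((hh - 1) * E0)) :=
      mul_le_mul_of_nonneg_left hR1 (by positivity)
    have a3 : hh * (K + l) * (hh * ((hh - 1) * E0)) ≤ hh ^ 2 * M * ε := by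
      have b1 : hh * (K + l) * (hh * ((hh - 1) * E0)) ≤
          hh * (K + l) * (hh * ((hh - 1) * (hh * (K0 * M) / P))) := by
        apply mul_le_mul_of_nonneg_left _ (by positivity)
        apply mul_le_mul_of_nonneg_left _ hh0.le
        exact mul_le_mul_of_nonneg_left hE0' (by linarith)
      have b2 : hh * (K + l) * (hh * ((hh - 1) * (hh * (K0 * M) / P)))
          = hh ^ 2 * M * (((K + l) * (hh - 1) * hh * K0) / P) := by
        field_simp
      have b3 : ((K + l) * (hh - 1) * hh * K0) / P ≤ ε := by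
        rw [div_le_iff₀ hP]; exact hP1
      have b4 : hh ^ 2 * M * (((K + l) * (hh - 1) * hh * K0) / P) ≤ hh ^ 2 * M * ε :=
        mul_le_mul_of_nonneg_left b3 (by positivity)
      linarith
    have a4 : hh * (K + l) * Y = hh ^ 2 * M * ((K + l) * y) := by rw [hYy]; ring
    calc hh ^ 2 * ((K + l) * R1) ≤ hh * (K + l) * (Y + hh * ((hh - 1) * E0)) := by
          rw [a1]; exact a2
      _ = hh * (K + l) * Y + hh * (K + l) * (hh * ((hh - 1) * E0)) := by ring
      _ ≤ hh ^ 2 * M * ((K + l) * y) + hh ^ 2 * M * ε := by linarith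
      _ = hh ^ 2 * M * ((K + l) * y + ε) := by ring
  have hKl : 0 ≤ K * l := mul_nonneg hK hl
  have e2 : S2 ≤ hh ^ 2 * M * ((K + l) * y + ε - K * l * (1 - δ) + ε) := by
    have a1 : hh ^ 2 * (K * l) * (M - 1) ≤ hh ^ 2 * (K * l) * M0 :=
      mul_le_mul_of_nonneg_left hM0 (by positivity)
    have a2 : hh ^ 2 * (K * l) * E1 ≤ hh ^ 2 * (K * l) * (δ * M + N1) :=
      mul_le_mul_of_nonneg_left hE1 (by positivity)
    calc S2 ≤ hh ^ 2 * ((K + l) * R1 - K * l * M0 + K * l * E1) + c1 := hS2u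
      _ = hh ^ 2 * ((K + l) * R1) - hh ^ 2 * (K * l) * M0 + hh ^ 2 * (K * l) * E1 + c1 := by ring
      _ ≤ hh ^ 2 * M * ((K + l) * y + ε) - hh ^ 2 * (K * l) * (M - 1)
          + hh ^ 2 * (K * l) * (δ * M + N1) + c1 := by linarith
      _ = hh ^ 2 * M * ((K + l) * y + ε - K * l * (1 - δ))
          + (hh ^ 2 * (K * l) * (1 + N1) + c1) := by ring
      _ ≤ hh ^ 2 * M * ((K + l) * y + ε - K * l * (1 - δ)) + ε * hh ^ 2 * M := by linarith
      _ = hh ^ 2 * M * ((K + l) * y + ε - K * l * (1 - δ) + ε) := by ring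
  have hpos : 0 < hh ^ 2 * M := by positivity
  obtain ⟨β, hβ⟩ : ∃ β, β = (hh - 1) / hh := ⟨_, rfl⟩
  rw [← hβ] at hδ
  have hβ0 : 0 ≤ β := by rw [hβ]; apply div_nonneg <;> linarith
  have hβ1 : β ≤ 1 := by rw [hβ, div_le_one hh0]; linarith
  have hβh : (hh - 1) = β * hh := by rw [hβ]; field_simp
  have hsq := sq_nonneg (K + l - β)
  by_cases hcase : Lr * (hh * K0) ≤ Y
  · have h1 := hstar hcase
    -- divide by hh^2 M
    have h2 : (hh - 1) * ((1 - ε) ^ 2 - ε) * Y = hh ^ 2 * M * (β * ((1 - ε) ^ 2 - ε) * y) := by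
      rw [hYy, hβh]; ring
    have h3 : M⁻¹ * (Y - Lr * (hh * K0)) ^ 2 = hh ^ 2 * M * (y - lam) ^ 2 := by
      have : Y - Lr * (hh * K0) = hh * M * (y - lam) := by
        rw [hYy]
        have : Lr * (hh * K0) = hh * (Lr * K0) := by ring
        rw [this, hLM]; ring
      rw [this]
      field_simp
    rw [h2, h3] at h1
    have h4 : hh ^ 2 * M * (β * ((1 - ε) ^ 2 - ε) * y + (y - lam) ^ 2) ≤
        hh ^ 2 * M * ((K + l) * y + ε - K * l * (1 - δ) + ε) := by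
      have : hh ^ 2 * M * (β * ((1 - ε) ^ 2 - ε) * y + (y - lam) ^ 2)
        = hh ^ 2 * M * (β * ((1 - ε) ^ 2 - ε) * y) + hh ^ 2 * M * (y - lam) ^ 2 := by ring
      rw [this]
      linarith
    have h5 := le_of_mul_le_mul_left h4 hpos
    have h6 : β * y - 3 * ε * K0 ≤ β * ((1 - ε) ^ 2 - ε) * y := by
      have a1 : β * ((1 - ε) ^ 2 - ε) * y = β * y - (3 * ε - ε ^ 2) * (β * y) := by ring
      rw [a1]
      have a2 : β * y ≤ K0 := by
        calc β * y ≤ 1 * K0 := mul_le_mul hβ1 hyK hy0 zero_le_one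
          _ = K0 := one_mul _
      have a3 : 0 ≤ β * y := mul_nonneg hβ0 hy0
      have a4 : (3 * ε - ε ^ 2) * (β * y) ≤ 3 * ε * K0 := by
        have : (3 * ε - ε ^ 2) ≤ 3 * ε := by
          have := sq_nonneg ε
          linarith
        have h0 : 0 ≤ 3 * ε := by linarith
        exact mul_le_mul this a2 a3 h0
      linarith
    have h7 : y ^ 2 - 2 * ε * K0 ≤ (y - lam) ^ 2 := by
      have a1 : lam * y ≤ ε * K0 := mul_le_mul hlam1 hyK hy0 hε0.le
      have a2 : (y - lam) ^ 2 = y ^ 2 - 2 * (lam * y) + lam ^ 2 := by ring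
      have a3 := sq_nonneg lam
      rw [a2]
      linarith
    have h8 : 0 ≤ (y - (K + l - β) / 2) ^ 2 := sq_nonneg _
    have h8' : (y - (K + l - β) / 2) ^ 2 = y ^ 2 - (K + l) * y + β * y + (K + l - β) ^ 2 / 4 := by
      ring
    rw [h8'] at h8
    have h9 : 0 ≤ ε * (K + l) := by positivity
    have h10 : ε * (2 + 5 * K0 + K + l) = 2 * ε + 5 * (ε * K0) + ε * (K + l) := by ring
    rw [h10] at hδ
    have h11 : 3 * ε * K0 = 3 * (ε * K0) := by ring
    have h12 : 2 * ε * K0 = 2 * (ε * K0) := by ring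
    rw [h11] at h6
    rw [h12] at h7
    linarith
  · rw [not_le] at hcase
    have h1 : y ≤ ε := by
      have : hh * M * y < hh * M * lam := by
        rw [← hYy]
        have e : Lr * (hh * K0) = hh * M * lam := by
          have : Lr * (hh * K0) = hh * (Lr * K0) := by ring
          rw [this, hLM]; ring
        rw [← e]; exact hcase
      have := lt_of_mul_lt_mul_left this (by positivity)
      linarith
    have h2 : 0 ≤ (K + l) * y + ε - K * l * (1 - δ) + ε := by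
      by_contra hneg
      rw [not_le] at hneg
      have := mul_neg_of_pos_of_neg hpos hneg
      linarith
    have h3 : (K + l) * y ≤ (K + l) * ε := mul_le_mul_of_nonneg_left h1 (by linarith)
    have h4 : 0 ≤ ε * K0 := by positivity
    have h10 : ε * (2 + 5 * K0 + K + l) = 2 * ε + 5 * (ε * K0) + (K + l) * ε := by ring
    rw [h10] at hδ
    linarith

end Pool.Agent.H396R2
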