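import Pool.Agent.H396R2.Final2

set_option autoImplicit false

open Finset

namespace Pool.Agent.H396R2

/-- pointwise bound for the square of `ρ` -/
lemma sq_bound (hh K l K0 ρ r : ℝ) (e : ℝ) (small : Prop) [Decidable small]
    (hh0 : 0 ≤ hh) (hK : 0 ≤ K) (hl : 0 ≤ l)
    (hρ0 : 0 ≤ ρ) (hr0 : 0 ≤ r) (hρ : ρ ≤ hh * r) (hrK0 : r ≤ K0)
    (he0 : 0 ≤ e) (he : r < l → 1 ≤ e) (hb : ¬ small → r ≤ K) :
    ρ ^ 2 ≤ hh ^ 2 * ((K + l) * r - K * l + K * l * e)
      + (if small then hh ^ 2 * (K * l) + (hh * K0) ^ 2 else 0) := by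
  have hKl : 0 ≤ K * l := mul_nonneg hK hl
  have h1 : ρ ^ 2 ≤ (hh * r) ^ 2 := pow_le_pow_left₀ hρ0 hρ 2
  split_ifs with hs
  · have h2 : (hh * r) ^ 2 ≤ (hh * K0) ^ 2 :=
      pow_le_pow_left₀ (mul_nonneg hh0 hr0) (mul_le_mul_of_nonneg_left hrK0 hh0) 2
    have h3 : 0 ≤ (K + l) * r + K * l * e := by positivity
    have h4 : 0 ≤ hh ^ 2 * ((K + l) * r + K * l * e) := by positivity
    have : hh ^ 2 * ((K + l) * r - K * l + K * l * e)
        = hh ^ 2 * ((K + l) * r + K * l * e) - hh ^ 2 * (K * l) := by ring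
    rw [this]
    linarith
  · have hrK := hb hs
    have h2 : r ^ 2 ≤ (K + l) * r - K * l + K * l * e := by
      by_cases hrl : r < l
      · have := he hrl
        have a1 : K * l * 1 ≤ K * l * e := mul_le_mul_of_nonneg_left this hKl
        have a2 : r ^ 2 ≤ K * r := by
          rw [pow_two]; exact mul_le_mul_of_nonneg_right hrK hr0
        have a3 : 0 ≤ l * r := mul_nonneg hl hr0
        linarith
      · rw [not_lt] at hrl
        have a1 : 0 ≤ (r - l) * (K - r) := mul_nonneg (by linarith) (by linarith)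
        have a2 : (r - l) * (K - r) = (K + l) * r - K * l - r ^ 2 := by ring
        have a3 : 0 ≤ K * l * e := mul_nonneg hKl he0
        linarith
    have h3 : (hh * r) ^ 2 ≤ hh ^ 2 * ((K + l) * r - K * l + K * l * e) := by
      rw [mul_pow]
      exact mul_le_mul_of_nonneg_left h2 (sq_nonneg hh)
    linarith

/-- upper bound for the second moment -/
lemma second_moment_le (A : Set ℕ) (F : Finset ℕ) (g T n0 K l K0 : ℕ) (x : ℝ)
    (hx0 : 0 < x) (hx1 : x < 1) (hF : ∀ a, a ∈ F ↔ a ∈ A ∧ a ≤ T)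
    (hb : ∀ n ≥ n0, rep A (g + 2) n ≤ K) (hK0 : ∀ n, rep A (g + 2) n ≤ K0)
    (hxT : x ^ (2 * (T + 1)) ≤ 1 - x ^ 2) :
    ∑ n ∈ range ((g + 2) * T + 1), x ^ (2 * n) * (rho F g n : ℝ) ^ 2
      ≤ ((g : ℝ) + 2) ^ 2 * (((K : ℝ) + l) * ∑ n ∈ range (T + 1), x ^ (2 * n) * (rM F (g + 2) n : ℝ)
          - K * l * ∑ n ∈ range (T + 1), x ^ (2 * n)
          + K * l * ∑ n ∈ range (T + 1), x ^ (2 * n) * (if rep A (g + 2) n < l then (1 : ℝ) else 0))
        + (n0 * (((g : ℝ) + 2) ^ 2 * (K * l) + (((g : ℝ) + 2) * K0) ^ 2)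
          + (((g : ℝ) + 2) * K0) ^ 2) := by
  classical
  have hx2 : 0 < 1 - x ^ 2 := by nlinarith
  have hrho : ∀ n, (rho F g n : ℝ) ≤ ((g : ℝ) + 2) * (rep A (g + 2) n : ℝ) := by
    intro n
    have h1 := rho_le F g n
    have h2 : rM F (g + 2) n ≤ rep A (g + 2) n :=
      card_msets_le_rep A F (fun a ha => ((hF a).1 ha).1) (g + 2) n
    have h3 : rho F g n ≤ (g + 2) * rep A (g + 2) n := h1.trans (Nat.mul_le_mul_left _ h2)
    exact_mod_cast h3
  have hrho0 : ∀ n, (rho F g n : ℝ) ≤ ((g : ℝ) + 2) * K0 := by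
    intro n
    refine (hrho n).trans ?_
    apply mul_le_mul_of_nonneg_left _ (by positivity)
    exact_mod_cast hK0 n
  have hTle : T + 1 ≤ (g + 2) * T + 1 := by
    have : 1 * T ≤ (g + 2) * T := Nat.mul_le_mul_right T (by omega)
    omega
  rw [← Finset.sum_range_add_sum_Ico _ hTle]
  -- small part
  have h1 : ∑ n ∈ range (T + 1), x ^ (2 * n) * (rho F g n : ℝ) ^ 2
      ≤ ((g : ℝ) + 2) ^ 2 * (((K : ℝ) + l) * ∑ n ∈ range (T + 1), x ^ (2 * n) * (rM F (g + 2) n : ℝ)
          - K * l * ∑ n ∈ range (T + 1), x ^ (2 * n)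
          + K * l * ∑ n ∈ range (T + 1), x ^ (2 * n) * (if rep A (g + 2) n < l then (1 : ℝ) else 0))
        + n0 * (((g : ℝ) + 2) ^ 2 * (K * l) + (((g : ℝ) + 2) * K0) ^ 2) := by
    have hp : ∀ n ∈ range (T + 1), x ^ (2 * n) * (rho F g n : ℝ) ^ 2 ≤
        ((g : ℝ) + 2) ^ 2 * (((K : ℝ) + l) * (x ^ (2 * n) * (rM F (g + 2) n : ℝ))
          - K * l * x ^ (2 * n)
          + K * l * (x ^ (2 * n) * (if rep A (g + 2) n < l then (1 : ℝ) else 0)))
        + (if n < n0 then (((g : ℝ) + 2) ^ 2 * (K * l) + (((g : ℝ) + 2) * K0) ^ 2) else 0) := by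
      intro n hn
      rw [Finset.mem_range] at hn
      have hr : rM F (g + 2) n = rep A (g + 2) n := by
        rw [rep_eq_card_msets A F T hF (g + 2) n (by omega)]
        rfl
      rw [hr]
      have hs := sq_bound ((g : ℝ) + 2) K l K0 (rho F g n) (rep A (g + 2) n)
        (if rep A (g + 2) n < l then (1 : ℝ) else 0) (n < n0) (by positivity) (Nat.cast_nonneg _)
        (Nat.cast_nonneg _) (Nat.cast_nonneg _) (Nat.cast_nonneg _) (hrho n)
        (by exact_mod_cast hK0 n) (by split_ifs <;> norm_num)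
        (by
          intro h
          rw [if_pos (by exact_mod_cast h)])
        (by
          intro h
          exact_mod_cast hb n (not_lt.1 h))
      have hx : 0 ≤ x ^ (2 * n) := by positivity
      have hx' : x ^ (2 * n) ≤ 1 := pow_le_one₀ hx0.le hx1.le
      have h2 := mul_le_mul_of_nonneg_left hs hx
      refine h2.trans ?_
      rw [mul_add]
      apply add_le_add
      · apply le_of_eq
        ring
      · split_ifs
        · have : 0 ≤ (((g : ℝ) + 2) ^ 2 * (K * l) + (((g : ℝ) + 2) * K0) ^ 2) := by positivity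
          calc x ^ (2 * n) * (((g : ℝ) + 2) ^ 2 * (K * l) + (((g : ℝ) + 2) * K0) ^ 2)
              ≤ 1 * (((g : ℝ) + 2) ^ 2 * (K * l) + (((g : ℝ) + 2) * K0) ^ 2) :=
                mul_le_mul_of_nonneg_right hx' this
            _ = _ := one_mul _
        · simp
    refine (Finset.sum_le_sum hp).trans ?_
    rw [Finset.sum_add_distrib, ← Finset.mul_sum, Finset.sum_add_distrib, Finset.sum_sub_distrib,
      ← Finset.mul_sum, ← Finset.mul_sum, ← Finset.mul_sum]
    gcongr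
    rw [← Finset.sum_filter, Finset.sum_const, nsmul_eq_mul]
    have hc : ((range (T + 1)).filter (fun n => n < n0)).card ≤ n0 := by
      calc ((range (T + 1)).filter (fun n => n < n0)).card ≤ (range n0).card := by
            apply Finset.card_le_card
            intro n hn
            rw [Finset.mem_filter] at hn
            exact Finset.mem_range.2 hn.2
        _ = n0 := card_range _
    have : 0 ≤ (((g : ℝ) + 2) ^ 2 * (K * l) + (((g : ℝ) + 2) * K0) ^ 2) := by positivity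
    apply mul_le_mul_of_nonneg_right _ this
    exact_mod_cast hc
  have h2 : ∑ n ∈ Finset.Ico (T + 1) ((g + 2) * T + 1), x ^ (2 * n) * (rho F g n : ℝ) ^ 2
      ≤ (((g : ℝ) + 2) * K0) ^ 2 := by
    calc ∑ n ∈ Finset.Ico (T + 1) ((g + 2) * T + 1), x ^ (2 * n) * (rho F g n : ℝ) ^ 2
        ≤ ∑ n ∈ Finset.Ico (T + 1) ((g + 2) * T + 1), x ^ (2 * n) * (((g : ℝ) + 2) * K0) ^ 2 := by
          apply Finset.sum_le_sum
          intro n _
          apply mul_le_mul_of_nonneg_left _ (by positivity)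
          exact pow_le_pow_left₀ (Nat.cast_nonneg _) (hrho0 n) 2
      _ = (∑ n ∈ Finset.Ico (T + 1) ((g + 2) * T + 1), x ^ (2 * n)) * (((g : ℝ) + 2) * K0) ^ 2 := by
          rw [Finset.sum_mul]
      _ ≤ 1 * (((g : ℝ) + 2) * K0) ^ 2 := by
          apply mul_le_mul_of_nonneg_right _ (by positivity)
          rw [Finset.sum_Ico_eq_sum_range]
          have : ∀ j, x ^ (2 * (T + 1 + j)) = x ^ (2 * (T + 1)) * x ^ (2 * j) := by
            intro j
            rw [← pow_add]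
            congr 1
            ring
          simp_rw [this]
          rw [← Finset.mul_sum]
          calc x ^ (2 * (T + 1)) * ∑ i ∈ range ((g + 2) * T + 1 - (T + 1)), x ^ (2 * i)
              ≤ (1 - x ^ 2) * (1 - x ^ 2)⁻¹ := by
                apply mul_le_mul hxT (geom_le x hx0 hx1 _) (by positivity) hx2.le
            _ = 1 := mul_inv_cancel₀ hx2.ne'
      _ = _ := one_mul _
  linarith

lemma geom_ge (x : ℝ) (hx0 : 0 < x) (hx1 : x < 1) (T : ℕ) (hxT : x ^ (2 * (T + 1)) ≤ 1 - x ^ 2) :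
    (1 - x ^ 2)⁻¹ - 1 ≤ ∑ n ∈ range (T + 1), x ^ (2 * n) := by
  have hx2 : x ^ 2 < 1 := by nlinarith
  have h0 : 0 < 1 - x ^ 2 := by linarith
  simp_rw [pow_mul] at hxT ⊢
  have e : ∑ n ∈ range (T + 1), (x ^ 2) ^ n = (1 - (x ^ 2) ^ (T + 1)) / (1 - x ^ 2) := by
    rw [geom_sum_eq (by linarith), ← neg_div_neg_eq]
    congr 1 <;> ring
  rw [e, inv_eq_one_div, div_sub_one h0.ne']
  apply div_le_div_of_nonneg_right _ h0.le
  linarith

theorem no_bounded (g l K : ℕ) (hl : 1 ≤ l) (hK : 1 ≤ K) (A : Set ℕ) (δ : ℝ)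
    (hδ : δ < 1 - ((K : ℝ) + l - 1 + 1 / ((g : ℝ) + 2)) ^ 2 / (4 * l * K))
    (N1 : ℕ) (hd : ∀ N ≥ N1,
      (((range N).filter (fun n => rep A (g + 2) n < l)).card : ℝ) ≤ δ * N)
    (n0 : ℕ) (hb : ∀ n ≥ n0, rep A (g + 2) n ≤ K) : False := by
  classical
  have hK' : (1 : ℝ) ≤ K := by exact_mod_cast hK
  have hl' : (1 : ℝ) ≤ l := by exact_mod_cast hl
  have hg0 : (0 : ℝ) ≤ g := Nat.cast_nonneg _
  -- δ in [0, 1)
  have hδ1 : δ < 1 := by
    have : 0 ≤ ((K : ℝ) + l - 1 + 1 / ((g : ℝ) + 2)) ^ 2 / (4 * l * K) := by positivity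
    linarith
  have hδ0 : 0 ≤ δ := by
    by_contra h
    rw [not_le] at h
    have h1 := hd (N1 + 1) (by omega)
    have h2 : (0 : ℝ) ≤ (((range (N1 + 1)).filter (fun n => rep A (g + 2) n < l)).card : ℝ) :=
      Nat.cast_nonneg _
    have h3 : δ * ((N1 + 1 : ℕ) : ℝ) < 0 := mul_neg_of_neg_of_pos h (by positivity)
    linarith
  -- global bound
  obtain ⟨K0, hK0, hK01⟩ : ∃ K0 : ℕ, (∀ n, rep A (g + 2) n ≤ K0) ∧ 1 ≤ K0 := by
    refine ⟨K + ∑ n ∈ range n0, rep A (g + 2) n, ?_, by omega⟩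
    intro n
    by_cases hn : n0 ≤ n
    · have := hb n hn
      omega
    · have h1 : n ∈ range n0 := Finset.mem_range.2 (not_le.1 hn)
      have h2 := Finset.single_le_sum (f := fun n => rep A (g + 2) n)
        (fun i _ => Nat.zero_le _) h1
      omega
  have hK0' : (1 : ℝ) ≤ K0 := by exact_mod_cast hK01
  -- A is infinite
  have hinf : A.Infinite := by
    intro hfin
    obtain ⟨b, hbA⟩ := hfin.bddAbove
    have hzero : ∀ n, (g + 2) * b < n → rep A (g + 2) n = 0 := by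
      intro n hn
      unfold rep
      rw [Set.ncard_eq_zero (rep_set_finite A (g + 2) n)]
      rw [Set.eq_empty_iff_forall_notMem]
      rintro s ⟨h1, h2, h3⟩
      have : s.sum ≤ Multiset.card s • b := by
        apply Multiset.sum_le_card_nsmul
        intro a ha
        exact hbA (h2 a ha)
      rw [h1, smul_eq_mul] at this
      omega
    obtain ⟨N, hN⟩ := exists_nat_gt ((((g + 2) * b + 1 : ℕ) : ℝ) / (1 - δ))
    have hN' : (((g + 2) * b + 1 : ℕ) : ℝ) < (1 - δ) * N := by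
      rw [div_lt_iff₀ (by linarith)] at hN
      linarith
    have h1 := hd (max N N1) (le_max_right _ _)
    have h2 : ((max N N1 : ℕ) : ℝ) - (((g + 2) * b + 1 : ℕ) : ℝ) ≤
        (((range (max N N1)).filter (fun n => rep A (g + 2) n < l)).card : ℝ) := by
      have h3 : Finset.Ico ((g + 2) * b + 1) (max N N1) ⊆
          (range (max N N1)).filter (fun n => rep A (g + 2) n < l) := by
        intro n hn
        rw [Finset.mem_Ico] at hn
        rw [Finset.mem_filter, Finset.mem_range, hzero n (by omega)]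
        exact ⟨hn.2, by omega⟩
      have h4 := Finset.card_le_card h3
      rw [Nat.card_Ico] at h4
      have h5 : (max N N1 : ℕ) ≤ ((range (max N N1)).filter (fun n => rep A (g + 2) n < l)).card
          + ((g + 2) * b + 1) := by omega
      have h6 : ((max N N1 : ℕ) : ℝ) ≤ (((range (max N N1)).filter
        (fun n => rep A (g + 2) n < l)).card : ℝ) + (((g + 2) * b + 1 : ℕ) : ℝ) := by
        exact_mod_cast h5
      linarith
    have h7 : (N : ℝ) ≤ ((max N N1 : ℕ) : ℝ) := by exact_mod_cast le_max_left _ _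
    have h8 : (1 - δ) * N ≤ (1 - δ) * ((max N N1 : ℕ) : ℝ) :=
      mul_le_mul_of_nonneg_left h7 (by linarith)
    linarith
  -- the gap
  obtain ⟨gap, hgap⟩ : ∃ gap : ℝ, gap = (K : ℝ) * l * (1 - δ)
    - ((K : ℝ) + l - (((g : ℝ) + 2) - 1) / ((g : ℝ) + 2)) ^ 2 / 4 := ⟨_, rfl⟩
  have hgap0 : 0 < gap := by
    have e : (K : ℝ) + l - (((g : ℝ) + 2) - 1) / ((g : ℝ) + 2)
        = (K : ℝ) + l - 1 + 1 / ((g : ℝ) + 2) := by
      have : (g : ℝ) + 2 ≠ 0 := by positivity
      field_simp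
      ring
    rw [hgap, e]
    have hKl : 0 < (K : ℝ) * l := by positivity
    have h1 : ((K : ℝ) + l - 1 + 1 / ((g : ℝ) + 2)) ^ 2 / (4 * l * K)
        = ((K : ℝ) + l - 1 + 1 / ((g : ℝ) + 2)) ^ 2 / 4 / ((K : ℝ) * l) := by
      rw [div_div]
      congr 1
      ring
    rw [h1] at hδ
    have h2 : ((K : ℝ) + l - 1 + 1 / ((g : ℝ) + 2)) ^ 2 / 4 / ((K : ℝ) * l) < 1 - δ := by linarith
    rw [div_lt_iff₀ hKl] at h2
    linarith
  -- choose ε
  obtain ⟨ε, hε0, hε1, hε2⟩ : ∃ ε : ℝ, 0 < ε ∧ ε ≤ 1 / 4 ∧ ε * (2 + 5 * K0 + K + l) < gap := by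
    have hden : (0 : ℝ) < 2 + 5 * K0 + K + l := by positivity
    refine ⟨min (1 / 4) (gap / (2 * (2 + 5 * K0 + K + l))), ?_, min_le_left _ _, ?_⟩
    · apply lt_min (by norm_num)
      positivity
    · calc min (1 / 4) (gap / (2 * (2 + 5 * K0 + K + l))) * (2 + 5 * K0 + K + l)
          ≤ gap / (2 * (2 + 5 * K0 + K + l)) * (2 + 5 * K0 + K + l) :=
            mul_le_mul_of_nonneg_right (min_le_right _ _) hden.le
        _ = gap / 2 := by field_simp
        _ < gap := by linarith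
  -- finite pieces of A with many elements
  have hmany : ∀ m : ℕ, ∃ X : ℕ, m ≤ ((range X).filter (fun a => a ∈ A)).card := by
    intro m
    obtain ⟨s, hs, hsc⟩ := hinf.exists_subset_card_eq m
    refine ⟨s.sup id + 1, ?_⟩
    rw [← hsc]
    apply Finset.card_le_card
    intro a ha
    rw [Finset.mem_filter, Finset.mem_range]
    have := Finset.le_sup (f := id) ha
    simp only [id] at this
    exact ⟨by omega, hs ha⟩
  -- choose L
  obtain ⟨m1, hm1⟩ := exists_nat_gt (8 * ((g : ℝ) + 2) * K0 / ε)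
  obtain ⟨L0, hL0⟩ := hmany m1
  set L := L0 + 1 with hLdef
  have hLm : m1 ≤ ((range L).filter (fun a => a ∈ A)).card := by
    refine hL0.trans (Finset.card_le_card ?_)
    intro a ha
    rw [Finset.mem_filter, Finset.mem_range] at ha ⊢
    exact ⟨by omega, ha.2⟩
  have hm1pos : (0 : ℝ) < m1 := lt_of_le_of_lt (by positivity) hm1
  -- choose X0 (for pp)
  obtain ⟨m2, hm2⟩ := exists_nat_gt (2 * (((K : ℝ) + l) * (((g : ℝ) + 2) - 1) * ((g : ℝ) + 2) * K0
    + g + 1) / ε)
  obtain ⟨X0, hX0⟩ := hmany m2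
  -- constant
  obtain ⟨c1, hc1⟩ : ∃ c1 : ℝ, c1 = (n0 * (((g : ℝ) + 2) ^ 2 * ((K : ℝ) * l)
    + (((g : ℝ) + 2) * K0) ^ 2) + (((g : ℝ) + 2) * K0) ^ 2) := ⟨_, rfl⟩
  obtain ⟨M1, hM1⟩ : ∃ M1 : ℝ, M1 = ((((g : ℝ) + 2) ^ 2 * ((K : ℝ) * l) * (1 + N1) + c1)
      / (ε * ((g : ℝ) + 2) ^ 2) + L * K0 / ε + 1) := ⟨_, rfl⟩
  have hc10 : 0 ≤ c1 := by rw [hc1]; positivity
  have hM10 : 0 < M1 := by rw [hM1]; positivity
  -- choose x
  obtain ⟨x, hx0, hx1, hxQ, hxM⟩ : ∃ x : ℝ, 0 < x ∧ x < 1 ∧ 1 / 2 ≤ x ^ (L + 2 * X0) ∧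
      M1 ≤ (1 - x ^ 2)⁻¹ := by
    have hc : Filter.Tendsto (fun x : ℝ => x ^ (L + 2 * X0)) (nhdsWithin 1 (Set.Iio 1))
        (nhds 1) := by
      have : Filter.Tendsto (fun x : ℝ => x ^ (L + 2 * X0)) (nhds 1) (nhds (1 ^ (L + 2 * X0))) :=
        (continuous_pow _).tendsto 1
      rw [one_pow] at this
      exact this.mono_left nhdsWithin_le_nhds
    have hc2 : Filter.Tendsto (fun x : ℝ => 1 - x ^ 2) (nhdsWithin 1 (Set.Iio 1))
        (nhds 0) := by
      have : Filter.Tendsto (fun x : ℝ => 1 - x ^ 2) (nhds 1) (nhds (1 - 1 ^ 2)) :=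
        (continuous_const.sub (continuous_pow 2)).tendsto 1
      rw [one_pow, sub_self] at this
      exact this.mono_left nhdsWithin_le_nhds
    have e1 : ∀ᶠ x : ℝ in nhdsWithin 1 (Set.Iio 1), 1 / 2 < x ^ (L + 2 * X0) :=
      hc.eventually (lt_mem_nhds (by norm_num))
    have e2 : ∀ᶠ x : ℝ in nhdsWithin 1 (Set.Iio 1), 1 - x ^ 2 < M1⁻¹ :=
      hc2.eventually (gt_mem_nhds (by positivity))
    have e3 : ∀ᶠ x : ℝ in nhdsWithin 1 (Set.Iio 1), 0 < x :=
      (lt_mem_nhds (by norm_num : (0 : ℝ) < 1)).filter_mono nhdsWithin_le_nhds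
    have e4 : ∀ᶠ x : ℝ in nhdsWithin 1 (Set.Iio 1), x < 1 := self_mem_nhdsWithin
    obtain ⟨x, h1, h2, h3, h4⟩ := (e1.and (e2.and (e3.and e4))).exists
    refine ⟨x, h3, h4, h1.le, ?_⟩
    have h5 : 0 < 1 - x ^ 2 := by nlinarith
    rw [← inv_inv M1]
    exact inv_anti₀ h5 h2.le
  have hx2 : 0 < 1 - x ^ 2 := by nlinarith
  obtain ⟨M, hM⟩ : ∃ M : ℝ, M = (1 - x ^ 2)⁻¹ := ⟨_, rfl⟩
  have hMpos : 0 < M := by rw [hM]; positivity
  -- choose T
  obtain ⟨T, hTL, hTX, hxT⟩ : ∃ T : ℕ, L ≤ T ∧ X0 ≤ T ∧ x ^ (2 * (T + 1)) ≤ 1 - x ^ 2 := by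
    obtain ⟨T0, hT0⟩ := exists_pow_lt_of_lt_one hx2 (show x ^ 2 < 1 by nlinarith)
    refine ⟨L + X0 + T0, by omega, by omega, ?_⟩
    have : x ^ (2 * (L + X0 + T0 + 1)) ≤ x ^ (2 * T0) :=
      pow_le_pow_of_le_one hx0.le hx1.le (by omega)
    rw [pow_mul x 2 T0] at this
    linarith
  -- the finite set
  set F : Finset ℕ := (range (T + 1)).filter (fun a => a ∈ A) with hFdef
  have hF : ∀ a, a ∈ F ↔ a ∈ A ∧ a ≤ T := by
    intro a
    rw [hFdef, Finset.mem_filter, Finset.mem_range]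
    constructor
    · rintro ⟨h1, h2⟩; exact ⟨h2, by omega⟩
    · rintro ⟨h1, h2⟩; exact ⟨by omega, h1⟩
  have hFT : ∀ a ∈ F, a ≤ T := fun a ha => ((hF a).1 ha).2
  have hrM : ∀ n, rM F (g + 2) n ≤ K0 := fun n =>
    (card_msets_le_rep A F (fun a ha => ((hF a).1 ha).1) (g + 2) n).trans (hK0 n)
  -- pp is large
  have hpp : ((K : ℝ) + l) * (((g : ℝ) + 2) - 1) * ((g : ℝ) + 2) * K0 + g + 1 ≤ ε * pp F x := by
    have h1 : (m2 : ℝ) * (1 / 2) ≤ pp F x := by
      calc (m2 : ℝ) * (1 / 2) ≤ (((range X0).filter (fun a => a ∈ A)).card : ℝ) * (1 / 2) := by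
            apply mul_le_mul_of_nonneg_right _ (by norm_num)
            exact_mod_cast hX0
        _ = ∑ a ∈ (range X0).filter (fun a => a ∈ A), (1 / 2 : ℝ) := by
            rw [Finset.sum_const, nsmul_eq_mul]
        _ ≤ ∑ a ∈ (range X0).filter (fun a => a ∈ A), x ^ (2 * a) := by
            apply Finset.sum_le_sum
            intro a ha
            rw [Finset.mem_filter, Finset.mem_range] at ha
            exact hxQ.trans (pow_le_pow_of_le_one hx0.le hx1.le (by omega))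
        _ ≤ pp F x := by
            unfold pp
            apply Finset.sum_le_sum_of_subset_of_nonneg
            · intro a ha
              rw [Finset.mem_filter, Finset.mem_range] at ha
              rw [hF]
              exact ⟨ha.2, by omega⟩
            · intro a _ _
              positivity
    rw [div_lt_iff₀ hε0] at hm2
    have h2 := mul_le_mul_of_nonneg_left h1 hε0.le
    linarith
  have hpp0 : 0 < pp F x := by
    have h1 : 0 < ε * pp F x := by
      refine lt_of_lt_of_le ?_ hpp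
      have h2 : 0 ≤ ((K : ℝ) + l) * (((g : ℝ) + 2) - 1) * ((g : ℝ) + 2) * K0 := by
        have : (0 : ℝ) ≤ ((g : ℝ) + 2) - 1 := by linarith
        positivity
      linarith
    exact (mul_pos_iff_of_pos_left hε0).1 h1
  -- windows
  obtain ⟨W, hWdef⟩ : ∃ W : ℝ, W = ((g : ℝ) + 2) * (2 * L * K0) / m1 := ⟨_, rfl⟩
  have hW : ∀ y i, (((F.powersetCard (g + 1)).filter
      (fun S => y ≤ ∑ a ∈ S, a + i ∧ ∑ a ∈ S, a + i < y + L)).card : ℝ) ≤ W := by
    intro y i
    have h1 := window_le F g K0 L hrM y i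
    have h2 : m1 ≤ (F.filter (fun a => a < L)).card := by
      refine hLm.trans (Finset.card_le_card ?_)
      intro a ha
      rw [Finset.mem_filter, Finset.mem_range] at ha
      rw [Finset.mem_filter, hF]
      exact ⟨⟨ha.2, by omega⟩, ha.1⟩
    rw [hWdef, le_div_iff₀ hm1pos]
    have h3 := (Nat.mul_le_mul_left ((F.powersetCard (g + 1)).filter
      (fun S => y ≤ ∑ a ∈ S, a + i ∧ ∑ a ∈ S, a + i < y + L)).card h2).trans h1
    exact_mod_cast h3
  have hWε : 4 * W ≤ ε * L := by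
    rw [hWdef]
    have h1 : 4 * (((g : ℝ) + 2) * (2 * L * K0) / m1) = L * (8 * ((g : ℝ) + 2) * K0 / m1) := by ring
    rw [h1]
    have h2 : 8 * ((g : ℝ) + 2) * K0 / m1 ≤ ε := by
      rw [div_le_iff₀ hm1pos]
      rw [div_lt_iff₀ hε0] at hm1
      linarith
    have h3 : (0 : ℝ) ≤ L := Nat.cast_nonneg _
    calc (L : ℝ) * (8 * ((g : ℝ) + 2) * K0 / m1) ≤ L * ε := mul_le_mul_of_nonneg_left h2 h3
      _ = ε * L := mul_comm _ _
  have hrho0 : ∀ n, (rho F g n : ℝ) ≤ ((g : ℝ) + 2) * K0 := by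
    intro n
    have h1 := (rho_le F g n).trans (Nat.mul_le_mul_left (g + 2) (hrM n))
    exact_mod_cast h1
  have hxL : 1 / 2 ≤ x ^ L := hxQ.trans (pow_le_pow_of_le_one hx0.le hx1.le (by omega))
  have hMbig : M1 ≤ M := by rw [hM]; exact hxM
  apply final_alg ((g : ℝ) + 2) K l K0 M (YY F g x T)
    (∑ n ∈ range ((g + 2) * T + 1), x ^ (2 * n) * (rho F g n : ℝ) ^ 2)
    (∑ n ∈ range (T + 1), x ^ (2 * n) * (rM F (g + 2) n : ℝ)) (EE F x (g + 1)) (pp F x)
    (∑ n ∈ range (T + 1), x ^ (2 * n))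
    (∑ n ∈ range (T + 1), x ^ (2 * n) * (if rep A (g + 2) n < l then (1 : ℝ) else 0))
    N1 c1 δ ε L
  · linarith
  · linarith
  · linarith
  · exact hK0'
  · exact hMpos
  · exact YY_nonneg hx0.le
  · positivity
  · exact hpp0
  · intro hY
    have h1 := star (F := F) (g := g) (x := x) (T := T) (L := L) hx0 hx1 hFT
      (((g : ℝ) + 2) * K0) W ε ε hrho0 hW hε0.le (by linarith) (by
        have h2 : 0 ≤ ((K : ℝ) + l) * (((g : ℝ) + 2) - 1) * ((g : ℝ) + 2) * K0 := by
          have : (0 : ℝ) ≤ ((g : ℝ) + 2) - 1 := by linarith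
          positivity
        linarith) (by omega) hxL hWε (by nlinarith) hY
    rw [hM, inv_inv]
    have e : ((g : ℝ) + 2 - 1) = (g + 1 : ℝ) := by ring
    rw [e]
    exact h1
  · rw [hc1]
    have := second_moment_le A F g T n0 K l K0 x hx0 hx1 hF hb hK0 hxT
    exact this
  · have h1 := sum_rM_le F x hx0 hx1.le g (T + 1)
    refine h1.trans ?_
    have e : ((g : ℝ) + 2 - 1) = (g + 1 : ℝ) := by ring
    rw [e]
    have h2 : ∑ n ∈ range (T + 1), (rho F g n : ℝ) * x ^ (2 * n) ≤ YY F g x T := by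
      unfold YY
      apply Finset.sum_le_sum_of_subset_of_nonneg
      · apply Finset.range_subset_range.2
        have : 1 * T ≤ (g + 2) * T := Nat.mul_le_mul_right T (by omega)
        omega
      · intro n _ _
        positivity
    linarith
  · have h1 := pp_mul_EE_le F x hx0.le (g + 1)
    have h2 := EE_le F x hx0 hx1 (g + 2) K0 hrM
    rw [← hM] at h2
    have e : (((g + 1 : ℕ) : ℝ) + 1) = (g : ℝ) + 2 := by push_cast; ring
    rw [e] at h1
    exact h1.trans (mul_le_mul_of_nonneg_left h2 (by positivity))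
  · rw [hM]
    exact geom_ge x hx0 hx1 T hxT
  · -- density
    have h1 := abel_ineq (fun n => x ^ (2 * n))
      (fun n => (if rep A (g + 2) n < l then (1 : ℝ) else 0) - δ)
      (fun n => pow_le_pow_of_le_one hx0.le hx1.le (by omega)) (fun n => by positivity) N1
      (by
        intro N
        rw [Finset.sum_sub_distrib, Finset.sum_const, card_range, nsmul_eq_mul, ← Finset.sum_filter,
          Finset.sum_const, nsmul_eq_mul, mul_one]
        by_cases hN : N1 ≤ N
        · have := hd N hN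
          have h0 : (0 : ℝ) ≤ N1 := Nat.cast_nonneg _
          linarith
        · have h2 : ((range N).filter (fun n => rep A (g + 2) n < l)).card ≤ N := by
            calc _ ≤ (range N).card := Finset.card_filter_le _ _
              _ = N := card_range _
          have h3 : (((range N).filter (fun n => rep A (g + 2) n < l)).card : ℝ) ≤ N := by
            exact_mod_cast h2
          have h4 : (N : ℝ) ≤ N1 := by exact_mod_cast (not_le.1 hN).le
          have h5 : 0 ≤ (N : ℝ) * δ := by positivity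
          linarith) T
    simp only [mul_zero, pow_zero, mul_one] at h1
    simp_rw [mul_sub] at h1
    rw [Finset.sum_sub_distrib, ← Finset.sum_mul] at h1
    have h2 := geom_le x hx0 hx1 (T + 1)
    rw [← hM] at h2
    have h3 := mul_le_mul_of_nonneg_left h2 hδ0
    linarith
  · -- Y ≤ hh K0 M
    unfold YY
    calc ∑ n ∈ range ((g + 2) * T + 1), (rho F g n : ℝ) * x ^ (2 * n)
        ≤ ∑ n ∈ range ((g + 2) * T + 1), (((g : ℝ) + 2) * K0) * x ^ (2 * n) := by
          apply Finset.sum_le_sum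
          intro n _
          exact mul_le_mul_of_nonneg_right (hrho0 n) (by positivity)
      _ = (((g : ℝ) + 2) * K0) * ∑ n ∈ range ((g + 2) * T + 1), x ^ (2 * n) := by
          rw [Finset.mul_sum]
      _ ≤ (((g : ℝ) + 2) * K0) * M := by
          rw [hM]
          exact mul_le_mul_of_nonneg_left (geom_le x hx0 hx1 _) (by positivity)
  · linarith
  · have h1 : (((g : ℝ) + 2) ^ 2 * ((K : ℝ) * l) * (1 + N1) + c1) / (ε * ((g : ℝ) + 2) ^ 2) ≤ M := by
      refine le_trans ?_ hMbig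
      rw [hM1]
      have : 0 ≤ (L : ℝ) * K0 / ε := by positivity
      linarith
    rw [div_le_iff₀ (by positivity)] at h1
    linarith
  · positivity
  · have h1 : (L : ℝ) * K0 / ε ≤ M := by
      refine le_trans ?_ hMbig
      rw [hM1]
      have : 0 ≤ (((g : ℝ) + 2) ^ 2 * ((K : ℝ) * l) * (1 + N1) + c1) / (ε * ((g : ℝ) + 2) ^ 2) := by
        positivity
      linarith
    rw [div_le_iff₀ hε0] at h1
    linarith
  · exact hε0
  · exact hε1
  · rw [← hgap]
    exact hε2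

end Pool.Agent.H396R2
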