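import Pool.Agent.H396R2.Energy
import Pool.Agent.H396R2.Counts

set_option autoImplicit false

open Finset

namespace Pool.Agent.H396R2

lemma win_corr {G : Type*} [AddCommGroup G] [Fintype G] (L : ℕ) (γ : ℕ → G) (u : G → ℝ) :
    ∑ k, (∑ i ∈ range L, u (k + γ i)) ^ 2
      = ∑ i ∈ range L, ∑ i' ∈ range L, ∑ k, u k * u (k + (γ i' - γ i)) := by
  have h1 : ∀ k, (∑ i ∈ range L, u (k + γ i)) ^ 2
      = ∑ i ∈ range L, ∑ i' ∈ range L, u (k + γ i) * u (k + γ i') := by
    intro k
    rw [pow_two, Finset.sum_mul_sum]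
  simp_rw [h1]
  rw [Finset.sum_comm]
  apply Finset.sum_congr rfl
  intro i _
  rw [Finset.sum_comm]
  apply Finset.sum_congr rfl
  intro i' _
  rw [← sum_shift (fun k => u k * u (k + (γ i' - γ i))) (γ i)]
  apply Finset.sum_congr rfl
  intro k _
  have : k + γ i + (γ i' - γ i) = k + γ i' := by abel
  simp only [this]

section

variable (F : Finset ℕ) (g : ℕ) (x : ℝ) (T L B : ℕ)

/-- pairs -/
def PP : Finset (Finset ℕ × ℕ) := F.powersetCard (g + 1) ×ˢ F

noncomputable def Rf [NeZero B] : ZMod B → ℝ :=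
  push (F.powersetCard (g + 1) ×ˢ F)
    (fun ω => ((∑ a ∈ ω.1, a : ℕ) : ZMod B) + (ω.2 : ZMod B))
    (fun ω => x ^ (∑ a ∈ ω.1, a) * x ^ ω.2)

noncomputable def sf [NeZero B] : ZMod B → ℝ :=
  push (F.powersetCard (g + 1) ×ˢ F)
    (fun ω => ((∑ a ∈ ω.1, a : ℕ) : ZMod B) - (ω.2 : ZMod B))
    (fun ω => x ^ (∑ a ∈ ω.1, a) * x ^ ω.2)

noncomputable def tf [NeZero B] : ZMod B → ℝ :=
  push (F.powersetCard g) (fun Z => ((∑ a ∈ Z, a : ℕ) : ZMod B))
    (fun Z => x ^ (∑ a ∈ Z, a) * (pp F x - g))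

variable {F g x T L B}

lemma corr_Rs [NeZero B] (j : ZMod B) :
    ∑ k, Rf F g x B k * Rf F g x B (k + j) = ∑ k, sf F g x B k * sf F g x B (k + j) :=
  corr_eq (F.powersetCard (g + 1)) F (fun S => ((∑ a ∈ S, a : ℕ) : ZMod B))
    (fun a => (a : ZMod B)) (fun S => x ^ (∑ a ∈ S, a)) (fun a => x ^ a) j

lemma sq_Rs [NeZero B] : ∑ k, (Rf F g x B k) ^ 2 = ∑ k, (sf F g x B k) ^ 2 := by
  have h := corr_Rs (F := F) (g := g) (x := x) (B := B) 0
  simp only [add_zero] at h
  simp_rw [pow_two]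
  exact h

lemma win_Rs [NeZero B] : ∑ k, (∑ i ∈ range L, Rf F g x B (k + (i : ZMod B))) ^ 2
    = ∑ k, (∑ i ∈ range L, sf F g x B (k + (i : ZMod B))) ^ 2 := by
  rw [win_corr L (fun i => (i : ZMod B)), win_corr L (fun i => (i : ZMod B))]
  simp_rw [corr_Rs]

/-- the trivial part is at most the whole -/
lemma tf_le_sf [NeZero B] (hx0 : 0 ≤ x) (hx1 : x ≤ 1) (k : ZMod B) :
    tf F g x B k ≤ sf F g x B k := by
  classical
  unfold tf sf push
  -- index set of pairs (Z, b), b ∉ Z
  set Q := ((F.powersetCard g) ×ˢ F).filter (fun q => q.2 ∉ q.1) with hQ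
  have h1 : ∑ Z ∈ F.powersetCard g,
      (if ((∑ a ∈ Z, a : ℕ) : ZMod B) = k then x ^ (∑ a ∈ Z, a) * (pp F x - g) else 0)
      ≤ ∑ q ∈ Q, (if ((∑ a ∈ q.1, a : ℕ) : ZMod B) = k then
          x ^ (∑ a ∈ q.1, a) * x ^ (2 * q.2) else 0) := by
    rw [hQ, Finset.sum_filter, Finset.sum_product]
    apply Finset.sum_le_sum
    intro Z hZ
    rw [Finset.mem_powersetCard] at hZ
    split_ifs with hk
    · simp only [hk, if_true]
      rw [← Finset.sum_filter, ← Finset.mul_sum]
      apply mul_le_mul_of_nonneg_left _ (by positivity)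
      have h2 : pp F x = ∑ a ∈ F with a ∉ Z, x ^ (2 * a) + ∑ a ∈ Z, x ^ (2 * a) := by
        unfold pp
        rw [← Finset.sum_filter_add_sum_filter_not F (fun a => a ∉ Z)]
        congr 1
        apply Finset.sum_congr _ (fun _ _ => rfl)
        ext a
        rw [Finset.mem_filter]
        constructor
        · rintro ⟨_, h⟩
          exact not_not.1 h
        · intro h
          exact ⟨hZ.1 h, not_not.2 h⟩
      have h3 : ∑ a ∈ Z, x ^ (2 * a) ≤ g := by
        calc ∑ a ∈ Z, x ^ (2 * a) ≤ ∑ a ∈ Z, (1 : ℝ) := by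
              apply Finset.sum_le_sum
              intro a _
              exact pow_le_one₀ hx0 hx1
          _ = g := by simp [hZ.2]
      linarith
    · simp only [hk, if_false]
      simp
  refine h1.trans ?_
  have hinj : Set.InjOn (fun q : Finset ℕ × ℕ => (insert q.2 q.1, q.2)) (Q : Set (Finset ℕ × ℕ)) := by
    rintro ⟨Z, b⟩ hq ⟨Z', b'⟩ hq' h
    rw [Finset.mem_coe, hQ, Finset.mem_filter] at hq hq'
    simp only [Prod.mk.injEq] at h hq hq'
    obtain ⟨h1, h2⟩ := h
    subst h2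
    have : Z = Z' := by
      rw [← Finset.erase_insert hq.2, ← Finset.erase_insert hq'.2, h1]
    rw [this]
  have h2 : ∑ q ∈ Q, (if ((∑ a ∈ q.1, a : ℕ) : ZMod B) = k then
          x ^ (∑ a ∈ q.1, a) * x ^ (2 * q.2) else 0)
      = ∑ ω ∈ Q.image (fun q : Finset ℕ × ℕ => (insert q.2 q.1, q.2)),
        (if ((∑ a ∈ ω.1, a : ℕ) : ZMod B) - (ω.2 : ZMod B) = k then
          x ^ (∑ a ∈ ω.1, a) * x ^ ω.2 else 0) := by
    rw [Finset.sum_image hinj]
    apply Finset.sum_congr rfl
    rintro ⟨Z, b⟩ hq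
    rw [hQ, Finset.mem_filter] at hq
    simp only at hq ⊢
    rw [Finset.sum_insert hq.2]
    have e1 : ((b + ∑ a ∈ Z, a : ℕ) : ZMod B) - (b : ZMod B) = ((∑ a ∈ Z, a : ℕ) : ZMod B) := by
      push_cast
      ring
    rw [e1]
    have e2 : x ^ (∑ a ∈ Z, a) * x ^ (2 * b) = x ^ (b + ∑ a ∈ Z, a) * x ^ b := by
      rw [← pow_add, ← pow_add]
      congr 1
      ring
    rw [e2]
  rw [h2]
  apply Finset.sum_le_sum_of_subset_of_nonneg
  · intro ω hω
    rw [Finset.mem_image] at hω
    obtain ⟨⟨Z, b⟩, hq, rfl⟩ := hω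
    rw [hQ, Finset.mem_filter, Finset.mem_product, Finset.mem_powersetCard] at hq
    simp only at hq
    rw [Finset.mem_product, Finset.mem_powersetCard]
    refine ⟨⟨?_, ?_⟩, hq.1.2⟩
    · intro a ha
      rw [Finset.mem_insert] at ha
      rcases ha with rfl | ha
      · exact hq.1.2
      · exact hq.1.1.1 ha
    · rw [Finset.card_insert_of_notMem hq.2, hq.1.1.2]
  · intro ω _ _
    split_ifs
    · positivity
    · exact le_rfl

lemma natCast_inj_of_lt [NeZero B] {m n : ℕ} (hm : m < B) (hn : n < B) :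
    ((m : ZMod B) = (n : ZMod B)) ↔ m = n := by
  rw [ZMod.natCast_eq_natCast_iff', Nat.mod_eq_of_lt hm, Nat.mod_eq_of_lt hn]

lemma sum_le_of_mem (hT : ∀ a ∈ F, a ≤ T) {j : ℕ} {S : Finset ℕ} (hS : S ∈ F.powersetCard j) :
    ∑ a ∈ S, a ≤ j * T := by
  rw [Finset.mem_powersetCard] at hS
  calc ∑ a ∈ S, a ≤ ∑ a ∈ S, T := Finset.sum_le_sum (fun a ha => hT a (hS.1 ha))
    _ = j * T := by rw [Finset.sum_const, hS.2, smul_eq_mul]

lemma sf_window [NeZero B] (hx0 : 0 < x) (hx1 : x ≤ 1) (hT : ∀ a ∈ F, a ≤ T)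
    (hB : (g + 2) * T + 2 * L < B) (W : ℝ)
    (hW : ∀ y i, (((F.powersetCard (g + 1)).filter
      (fun S => y ≤ ∑ a ∈ S, a + i ∧ ∑ a ∈ S, a + i < y + L)).card : ℝ) ≤ W)
    (Z : Finset ℕ) (hZ : Z ∈ F.powersetCard g) (i : ℕ) (hi : i < L) :
    x ^ L * ∑ i' ∈ range L, sf F g x B (((∑ a ∈ Z, a : ℕ) : ZMod B) + ((i' : ZMod B) - (i : ZMod B)))
      ≤ W * (x ^ (∑ a ∈ Z, a) * pp F x) := by
  classical
  unfold sf push
  rw [Finset.sum_comm, Finset.sum_product_right, Finset.mul_sum]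
  have hZT := sum_le_of_mem hT hZ
  have key : ∀ b ∈ F, x ^ L * ∑ S ∈ F.powersetCard (g + 1), ∑ i' ∈ range L,
      (if ((∑ a ∈ S, a : ℕ) : ZMod B) - (b : ZMod B)
        = ((∑ a ∈ Z, a : ℕ) : ZMod B) + ((i' : ZMod B) - (i : ZMod B)) then
        x ^ (∑ a ∈ S, a) * x ^ b else 0) ≤ W * (x ^ (∑ a ∈ Z, a) * x ^ (2 * b)) := by
    intro b hb
    have hbT := hT b hb
    rw [Finset.mul_sum]
    calc ∑ S ∈ F.powersetCard (g + 1), x ^ L * ∑ i' ∈ range L,
        (if ((∑ a ∈ S, a : ℕ) : ZMod B) - (b : ZMod B)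
          = ((∑ a ∈ Z, a : ℕ) : ZMod B) + ((i' : ZMod B) - (i : ZMod B)) then
          x ^ (∑ a ∈ S, a) * x ^ b else 0)
        ≤ ∑ S ∈ F.powersetCard (g + 1),
          (if (∑ a ∈ Z, a + b ≤ ∑ a ∈ S, a + i ∧ ∑ a ∈ S, a + i < ∑ a ∈ Z, a + b + L) then
            x ^ (∑ a ∈ Z, a) * x ^ (2 * b) else 0) := by
          apply Finset.sum_le_sum
          intro S hS
          have hST := sum_le_of_mem hT hS
          have hcond : ∀ i' ∈ range L, (((∑ a ∈ S, a : ℕ) : ZMod B) - (b : ZMod B)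
              = ((∑ a ∈ Z, a : ℕ) : ZMod B) + ((i' : ZMod B) - (i : ZMod B))) ↔
              (∑ a ∈ S, a + i = ∑ a ∈ Z, a + i' + b) := by
            intro i' hi'
            rw [Finset.mem_range] at hi'
            have e : (((∑ a ∈ S, a : ℕ) : ZMod B) - (b : ZMod B)
              = ((∑ a ∈ Z, a : ℕ) : ZMod B) + ((i' : ZMod B) - (i : ZMod B))) ↔
              (((∑ a ∈ S, a + i : ℕ) : ZMod B) = ((∑ a ∈ Z, a + i' + b : ℕ) : ZMod B)) := by
              push_cast
              constructor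
              · intro h
                linear_combination h
              · intro h
                linear_combination h
            rw [e]
            apply natCast_inj_of_lt
            · have : (g + 1) * T ≤ (g + 2) * T := Nat.mul_le_mul_right T (by omega)
              omega
            · have : (g + 2) * T = g * T + T + T := by ring
              omega
          split_ifs with hwin
          · -- at most one i'
            have h1 : ∑ i' ∈ range L,
              (if ((∑ a ∈ S, a : ℕ) : ZMod B) - (b : ZMod B)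
                = ((∑ a ∈ Z, a : ℕ) : ZMod B) + ((i' : ZMod B) - (i : ZMod B)) then
                x ^ (∑ a ∈ S, a) * x ^ b else 0) ≤ x ^ (∑ a ∈ S, a) * x ^ b := by
              have h2 : ∑ i' ∈ range L,
                (if ((∑ a ∈ S, a : ℕ) : ZMod B) - (b : ZMod B)
                  = ((∑ a ∈ Z, a : ℕ) : ZMod B) + ((i' : ZMod B) - (i : ZMod B)) then
                  x ^ (∑ a ∈ S, a) * x ^ b else 0)
                  = ∑ i' ∈ range L, (if i' = ∑ a ∈ S, a + i - (∑ a ∈ Z, a + b) then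
                    x ^ (∑ a ∈ S, a) * x ^ b else 0) := by
                apply Finset.sum_congr rfl
                intro i' hi'
                have := hcond i' hi'
                by_cases hc : ∑ a ∈ S, a + i = ∑ a ∈ Z, a + i' + b
                · rw [if_pos (this.2 hc), if_pos (by omega)]
                · rw [if_neg (fun h => hc (this.1 h)), if_neg (by omega)]
              rw [h2, Finset.sum_ite_eq']
              split_ifs
              · exact le_rfl
              · positivity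
            calc x ^ L * _ ≤ x ^ L * (x ^ (∑ a ∈ S, a) * x ^ b) :=
                  mul_le_mul_of_nonneg_left h1 (by positivity)
              _ = x ^ (∑ a ∈ S, a + L + b) := by
                  rw [← pow_add, ← pow_add]; congr 1; ring
              _ ≤ x ^ (∑ a ∈ Z, a + b + b) := pow_le_pow_of_le_one hx0.le hx1 (by omega)
              _ = x ^ (∑ a ∈ Z, a) * x ^ (2 * b) := by
                  rw [← pow_add]; congr 1; ring
          · have h1 : ∑ i' ∈ range L,
              (if ((∑ a ∈ S, a : ℕ) : ZMod B) - (b : ZMod B)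
                = ((∑ a ∈ Z, a : ℕ) : ZMod B) + ((i' : ZMod B) - (i : ZMod B)) then
                x ^ (∑ a ∈ S, a) * x ^ b else 0) = 0 := by
              apply Finset.sum_eq_zero
              intro i' hi'
              rw [if_neg]
              intro h
              rw [hcond i' hi'] at h
              rw [Finset.mem_range] at hi'
              apply hwin
              omega
            rw [h1, mul_zero]
      _ = ((F.powersetCard (g + 1)).filter (fun S => ∑ a ∈ Z, a + b ≤ ∑ a ∈ S, a + i ∧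
            ∑ a ∈ S, a + i < ∑ a ∈ Z, a + b + L)).card * (x ^ (∑ a ∈ Z, a) * x ^ (2 * b)) := by
          rw [← Finset.sum_filter, Finset.sum_const, nsmul_eq_mul]
      _ ≤ W * (x ^ (∑ a ∈ Z, a) * x ^ (2 * b)) := by
          apply mul_le_mul_of_nonneg_right (hW _ _) (by positivity)
  calc ∑ b ∈ F, x ^ L * ∑ S ∈ F.powersetCard (g + 1), ∑ i' ∈ range L,
      (if ((∑ a ∈ S, a : ℕ) : ZMod B) - (b : ZMod B)
        = ((∑ a ∈ Z, a : ℕ) : ZMod B) + ((i' : ZMod B) - (i : ZMod B)) then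
        x ^ (∑ a ∈ S, a) * x ^ b else 0)
      ≤ ∑ b ∈ F, W * (x ^ (∑ a ∈ Z, a) * x ^ (2 * b)) := Finset.sum_le_sum key
    _ = W * (x ^ (∑ a ∈ Z, a) * pp F x) := by
        unfold pp
        rw [Finset.mul_sum, Finset.mul_sum]

/-- the lower bound for the energy of `s` -/
lemma energy_s [NeZero B] (hx0 : 0 < x) (hx1 : x ≤ 1) (hT : ∀ a ∈ F, a ≤ T)
    (hB : (g + 2) * T + 2 * L < B) (W : ℝ)
    (hW : ∀ y i, (((F.powersetCard (g + 1)).filter
      (fun S => y ≤ ∑ a ∈ S, a + i ∧ ∑ a ∈ S, a + i < y + L)).card : ℝ) ≤ W)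
    (hpp : (g : ℝ) ≤ pp F x) :
    x ^ L * ((L : ℝ) ^ 2 * ((pp F x - g) ^ 2 * ee F x g))
        - 2 * (L * W * pp F x * ((pp F x - g) * ee F x g))
      ≤ x ^ L * ((L : ℝ) ^ 2 * ∑ k, (sf F g x B k) ^ 2
        - ∑ k, (∑ i ∈ range L, sf F g x B (k + (i : ZMod B))) ^ 2) := by
  classical
  have hxL : 0 < x ^ L := by positivity
  have hpg : 0 ≤ pp F x - g := by linarith
  have ht : ∀ k, 0 ≤ tf F g x B k := by
    intro k
    unfold tf
    apply push_nonneg
    intro Z _
    positivity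
  have hu : ∀ k, 0 ≤ sf F g x B k - tf F g x B k := by
    intro k
    have := tf_le_sf (F := F) (g := g) hx0.le hx1 k
    linarith
  have h1 := energy_lower L (fun i => (i : ZMod B)) (tf F g x B)
    (fun k => sf F g x B k - tf F g x B k) ht hu
  simp only [add_sub_cancel] at h1
  -- lower bound for ∑ t^2
  have h2 : (pp F x - g) ^ 2 * ee F x g ≤ ∑ k, (tf F g x B k) ^ 2 := by
    have := sum_push_sq_ge (F.powersetCard g) (fun Z => ((∑ a ∈ Z, a : ℕ) : ZMod B))
      (fun Z => x ^ (∑ a ∈ Z, a) * (pp F x - g)) (fun Z _ => by positivity)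
    refine le_trans (le_of_eq ?_) this
    unfold ee
    rw [Finset.mul_sum]
    apply Finset.sum_congr rfl
    intro Z _
    rw [mul_pow, ← pow_mul]
    ring_nf
  -- upper bound for the cross term
  have h3 : x ^ L * ∑ m, tf F g x B m * ∑ i ∈ range L, ∑ i' ∈ range L,
      sf F g x B (m + ((i' : ZMod B) - (i : ZMod B)))
      ≤ L * W * pp F x * ((pp F x - g) * ee F x g) := by
    unfold tf
    rw [sum_push_mul, Finset.mul_sum]
    calc ∑ Z ∈ F.powersetCard g, x ^ L * (x ^ (∑ a ∈ Z, a) * (pp F x - g) *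
          ∑ i ∈ range L, ∑ i' ∈ range L,
            sf F g x B (((∑ a ∈ Z, a : ℕ) : ZMod B) + ((i' : ZMod B) - (i : ZMod B))))
        ≤ ∑ Z ∈ F.powersetCard g, (x ^ (∑ a ∈ Z, a) * (pp F x - g)) *
          (L * (W * (x ^ (∑ a ∈ Z, a) * pp F x))) := by
          apply Finset.sum_le_sum
          intro Z hZ
          have h4 : x ^ L * ∑ i ∈ range L, ∑ i' ∈ range L,
            sf F g x B (((∑ a ∈ Z, a : ℕ) : ZMod B) + ((i' : ZMod B) - (i : ZMod B)))
            ≤ L * (W * (x ^ (∑ a ∈ Z, a) * pp F x)) := by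
            rw [Finset.mul_sum]
            refine (Finset.sum_le_sum (fun i hi =>
              sf_window hx0 hx1 hT hB W hW Z hZ i (Finset.mem_range.1 hi))).trans (le_of_eq ?_)
            rw [Finset.sum_const, card_range, nsmul_eq_mul]
          have h5 : 0 ≤ x ^ (∑ a ∈ Z, a) * (pp F x - g) := by positivity
          have h6 := mul_le_mul_of_nonneg_left h4 h5
          refine le_trans (le_of_eq ?_) h6
          ring
      _ = L * W * pp F x * ((pp F x - g) * ee F x g) := by
          unfold ee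
          rw [Finset.mul_sum, Finset.mul_sum]
          apply Finset.sum_congr rfl
          intro Z _
          rw [mul_comm 2 (∑ a ∈ Z, a), pow_mul]
          ring
  have h6 : x ^ L * ((L : ℝ) ^ 2 * ((pp F x - g) ^ 2 * ee F x g))
      ≤ x ^ L * ((L : ℝ) ^ 2 * ∑ k, (tf F g x B k) ^ 2) := by
    apply mul_le_mul_of_nonneg_left _ hxL.le
    exact mul_le_mul_of_nonneg_left h2 (by positivity)
  have h7 := mul_le_mul_of_nonneg_left h1 hxL.le
  rw [mul_sub] at h7
  linarith

end

end Pool.Agent.H396R2
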