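import Mathlib

set_option autoImplicit false

open Finset

namespace Pool.Agent.H396R2

/-- multisets of cardinality `j` with all elements in `F` -/
def msets (F : Finset ℕ) (j : ℕ) : Finset (Multiset ℕ) :=
  (Finset.sym F j).map ⟨fun s : Sym ℕ j => (s : Multiset ℕ), Sym.coe_injective⟩

lemma mem_msets {F : Finset ℕ} {j : ℕ} {m : Multiset ℕ} :
    m ∈ msets F j ↔ Multiset.card m = j ∧ ∀ a ∈ m, a ∈ F := by
  unfold msets
  rw [Finset.mem_map]
  constructor
  · rintro ⟨s, hs, rfl⟩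
    rw [Finset.mem_sym_iff] at hs
    exact ⟨s.2, fun a ha => hs a ha⟩
  · rintro ⟨h1, h2⟩
    refine ⟨Sym.mk m h1, ?_, rfl⟩
    rw [Finset.mem_sym_iff]
    intro a ha
    exact h2 a ha

/-- unordered representation function -/
noncomputable def rep (A : Set ℕ) (h n : ℕ) : ℕ :=
  Set.ncard {s : Multiset ℕ | Multiset.card s = h ∧ (∀ a ∈ s, a ∈ A) ∧ s.sum = n}

lemma rep_set_finite (A : Set ℕ) (h n : ℕ) :
    {s : Multiset ℕ | Multiset.card s = h ∧ (∀ a ∈ s, a ∈ A) ∧ s.sum = n}.Finite := by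
  apply Set.Finite.subset (msets (range (n + 1)) h).finite_toSet
  rintro s ⟨h1, _, h3⟩
  rw [Finset.mem_coe, mem_msets]
  refine ⟨h1, fun a ha => ?_⟩
  rw [Finset.mem_range]
  have := Multiset.le_sum_of_mem ha
  omega

lemma card_msets_le_rep (A : Set ℕ) (F : Finset ℕ) (hF : ∀ a ∈ F, a ∈ A) (h n : ℕ) :
    ((msets F h).filter (fun m => m.sum = n)).card ≤ rep A h n := by
  unfold rep
  rw [← Set.ncard_coe_finset]
  apply Set.ncard_le_ncard _ (rep_set_finite A h n)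
  intro m hm
  rw [Finset.mem_coe, Finset.mem_filter, mem_msets] at hm
  exact ⟨hm.1.1, fun a ha => hF a (hm.1.2 a ha), hm.2⟩

lemma rep_eq_card_msets (A : Set ℕ) (F : Finset ℕ) (T : ℕ) (hF : ∀ a, a ∈ F ↔ a ∈ A ∧ a ≤ T)
    (h n : ℕ) (hn : n ≤ T) :
    rep A h n = ((msets F h).filter (fun m => m.sum = n)).card := by
  unfold rep
  rw [← Set.ncard_coe_finset]
  congr 1
  ext m
  rw [Finset.mem_coe, Finset.mem_filter, mem_msets]
  constructor
  · rintro ⟨h1, h2, h3⟩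
    refine ⟨⟨h1, fun a ha => ?_⟩, h3⟩
    rw [hF]
    have := Multiset.le_sum_of_mem ha
    exact ⟨h2 a ha, by omega⟩
  · rintro ⟨⟨h1, h2⟩, h3⟩
    exact ⟨h1, fun a ha => ((hF a).1 (h2 a ha)).1, h3⟩

/-- adding an element to a multiset: every multiset of size `j+1` has at most `j+1` preimages -/
lemma sum_cons_le (P : Finset (Multiset ℕ × ℕ)) (j : ℕ)
    (hP : ∀ p ∈ P, Multiset.card p.1 = j) (w : Multiset ℕ → ℝ) (hw : ∀ m, 0 ≤ w m) :
    ∑ p ∈ P, w (p.2 ::ₘ p.1) ≤ (j + 1 : ℝ) * ∑ M ∈ P.image (fun p => p.2 ::ₘ p.1), w M := by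
  classical
  rw [← Finset.sum_fiberwise_of_maps_to (g := fun p : Multiset ℕ × ℕ => p.2 ::ₘ p.1)
    (t := P.image (fun p => p.2 ::ₘ p.1)) (fun p hp => Finset.mem_image_of_mem _ hp)]
  rw [Finset.mul_sum]
  apply Finset.sum_le_sum
  intro M hM
  rw [Finset.mem_image] at hM
  obtain ⟨p0, hp0, hp0M⟩ := hM
  have hcard : Multiset.card M = j + 1 := by
    rw [← hp0M, Multiset.card_cons, hP p0 hp0]
  have h1 : ∑ p ∈ P with p.2 ::ₘ p.1 = M, w (p.2 ::ₘ p.1)
      = ((P.filter (fun p => p.2 ::ₘ p.1 = M)).card : ℝ) * w M := by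
    rw [Finset.sum_congr rfl (g := fun _ => w M)]
    · rw [Finset.sum_const, nsmul_eq_mul]
    · intro p hp
      rw [Finset.mem_filter] at hp
      rw [hp.2]
  rw [h1]
  apply mul_le_mul_of_nonneg_right _ (hw M)
  have h2 : (P.filter (fun p => p.2 ::ₘ p.1 = M)).card ≤ M.toFinset.card := by
    apply Finset.card_le_card_of_injOn (fun p => p.2)
    · intro p hp
      rw [Finset.mem_coe, Finset.mem_filter] at hp
      rw [Finset.mem_coe, Multiset.mem_toFinset, ← hp.2]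
      exact Multiset.mem_cons_self _ _
    · intro p hp p' hp' hpp
      rw [Finset.mem_coe, Finset.mem_filter] at hp hp'
      have h3 : p.2 ::ₘ p.1 = p'.2 ::ₘ p'.1 := by rw [hp.2, hp'.2]
      have h4 : p.2 = p'.2 := hpp
      rw [h4] at h3
      have h5 := (Multiset.cons_inj_right _).1 h3
      exact Prod.ext h5 h4
  have h6 : M.toFinset.card ≤ Multiset.card M := Multiset.toFinset_card_le M
  have : (P.filter (fun p => p.2 ::ₘ p.1 = M)).card ≤ j + 1 := by omega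
  exact_mod_cast this

end Pool.Agent.H396R2
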