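import Pool.Agent.H396R2.Main

set_option autoImplicit false

open Finset

namespace Pool.Agent.H396R2

variable {F : Finset ℕ} {g : ℕ} {x : ℝ} {T L B : ℕ}

lemma sum_pairs (hT : ∀ a ∈ F, a ≤ T) (f : ℕ → ℝ) :
    ∑ ω ∈ F.powersetCard (g + 1) ×ˢ F, f (∑ a ∈ ω.1, a + ω.2)
      = ∑ n ∈ range ((g + 2) * T + 1), (rho F g n : ℝ) * f n := by
  classical
  rw [← Finset.sum_fiberwise_of_maps_to
    (g := fun ω : Finset ℕ × ℕ => ∑ a ∈ ω.1, a + ω.2) (t := range ((g + 2) * T + 1))]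
  · apply Finset.sum_congr rfl
    intro n _
    unfold rho
    rw [← nsmul_eq_mul, ← Finset.sum_const]
    apply Finset.sum_congr rfl
    intro ω hω
    rw [Finset.mem_filter] at hω
    rw [hω.2]
  · intro ω hω
    rw [Finset.mem_product] at hω
    have h1 := sum_le_of_mem hT hω.1
    have h2 := hT _ hω.2
    rw [Finset.mem_range]
    have : (g + 2) * T = (g + 1) * T + T := by ring
    omega

lemma Rf_natCast [NeZero B] (hT : ∀ a ∈ F, a ≤ T) (hB : (g + 2) * T < B) (n : ℕ) (hn : n < B) :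
    Rf F g x B (n : ZMod B) = x ^ n * rho F g n := by
  classical
  unfold Rf push rho
  rw [mul_comm, ← nsmul_eq_mul, ← Finset.sum_const, Finset.sum_filter]
  apply Finset.sum_congr rfl
  intro ω hω
  rw [Finset.mem_product] at hω
  have h1 := sum_le_of_mem hT hω.1
  have h2 := hT _ hω.2
  have h3 : (g + 2) * T = (g + 1) * T + T := by ring
  have h4 : (((∑ a ∈ ω.1, a : ℕ) : ZMod B) + (ω.2 : ZMod B) = (n : ZMod B)) ↔
      (∑ a ∈ ω.1, a + ω.2 = n) := by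
    rw [← Nat.cast_add]
    exact natCast_inj_of_lt (by omega) hn
  by_cases h : ∑ a ∈ ω.1, a + ω.2 = n
  · rw [if_pos (h4.2 h), if_pos h]
    show x ^ (∑ a ∈ ω.1, a) * x ^ ω.2 = x ^ n
    rw [← pow_add, h]
  · rw [if_neg (fun h' => h (h4.1 h')), if_neg h]

lemma sum_Rf_sq [NeZero B] (hT : ∀ a ∈ F, a ≤ T) (hB : (g + 2) * T < B) :
    ∑ k, (Rf F g x B k) ^ 2 = ∑ n ∈ range ((g + 2) * T + 1), x ^ (2 * n) * (rho F g n : ℝ) ^ 2 := by
  have h1 : ∑ k, (Rf F g x B k) ^ 2 = ∑ ω ∈ F.powersetCard (g + 1) ×ˢ F,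
      (x ^ (∑ a ∈ ω.1, a) * x ^ ω.2) *
        Rf F g x B (((∑ a ∈ ω.1, a : ℕ) : ZMod B) + (ω.2 : ZMod B)) := by
    have := sum_push_mul (F.powersetCard (g + 1) ×ˢ F)
      (fun ω => ((∑ a ∈ ω.1, a : ℕ) : ZMod B) + (ω.2 : ZMod B))
      (fun ω => x ^ (∑ a ∈ ω.1, a) * x ^ ω.2) (Rf F g x B)
    rw [← this]
    apply Finset.sum_congr rfl
    intro k _
    rw [pow_two]
    rfl
  rw [h1]
  have h2 : ∀ ω ∈ F.powersetCard (g + 1) ×ˢ F, (x ^ (∑ a ∈ ω.1, a) * x ^ ω.2) *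
        Rf F g x B (((∑ a ∈ ω.1, a : ℕ) : ZMod B) + (ω.2 : ZMod B))
      = (fun n : ℕ => x ^ (2 * n) * (rho F g n : ℝ)) (∑ a ∈ ω.1, a + ω.2) := by
    intro ω hω
    rw [Finset.mem_product] at hω
    have h1 := sum_le_of_mem hT hω.1
    have h2 := hT _ hω.2
    have h3 : (g + 2) * T = (g + 1) * T + T := by ring
    rw [← Nat.cast_add, Rf_natCast hT hB _ (by omega), ← pow_add]
    simp only
    rw [two_mul, pow_add]
    ring
  rw [Finset.sum_congr rfl h2, sum_pairs hT (fun n : ℕ => x ^ (2 * n) * (rho F g n : ℝ))]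
  apply Finset.sum_congr rfl
  intro n _
  ring

lemma win_Rf_ge [NeZero B] (hT : ∀ a ∈ F, a ≤ T)
    (hB : (g + 2) * T + 2 * L < B) :
    ∑ n ∈ range ((g + 2) * T + 1), (∑ i ∈ range L, x ^ (n + i) * (rho F g (n + i) : ℝ)) ^ 2
      ≤ ∑ k, (∑ i ∈ range L, Rf F g x B (k + (i : ZMod B))) ^ 2 := by
  classical
  rcases Nat.eq_zero_or_pos L with hL | hL
  · subst hL
    simp
  have hinj : Set.InjOn (fun n : ℕ => (n : ZMod B)) (range ((g + 2) * T + 1) : Set ℕ) := by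
    intro m hm n hn h
    rw [Finset.mem_coe, Finset.mem_range] at hm hn
    exact (natCast_inj_of_lt (by omega) (by omega)).1 h
  calc ∑ n ∈ range ((g + 2) * T + 1), (∑ i ∈ range L, x ^ (n + i) * (rho F g (n + i) : ℝ)) ^ 2
      = ∑ n ∈ range ((g + 2) * T + 1), (∑ i ∈ range L, Rf F g x B ((n : ZMod B) + (i : ZMod B))) ^ 2 := by
        apply Finset.sum_congr rfl
        intro n hn
        rw [Finset.mem_range] at hn
        congr 1
        apply Finset.sum_congr rfl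
        intro i hi
        rw [Finset.mem_range] at hi
        rw [← Nat.cast_add, Rf_natCast hT (by omega) _ (by omega)]
    _ = ∑ k ∈ (range ((g + 2) * T + 1)).image (fun n : ℕ => (n : ZMod B)),
          (∑ i ∈ range L, Rf F g x B (k + (i : ZMod B))) ^ 2 := by
        rw [Finset.sum_image hinj]
    _ ≤ ∑ k, (∑ i ∈ range L, Rf F g x B (k + (i : ZMod B))) ^ 2 := by
        apply Finset.sum_le_sum_of_subset_of_nonneg (Finset.subset_univ _)
        intro k _ _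
        positivity

/-- total weighted number of pairs -/
noncomputable def YY (F : Finset ℕ) (g : ℕ) (x : ℝ) (T : ℕ) : ℝ :=
  ∑ n ∈ range ((g + 2) * T + 1), (rho F g n : ℝ) * x ^ (2 * n)

lemma YY_eq (hT : ∀ a ∈ F, a ≤ T) : YY F g x T = pp F x * ee F x (g + 1) := by
  unfold YY
  rw [← sum_pairs hT (fun n => x ^ (2 * n))]
  unfold pp ee
  rw [mul_comm, Finset.sum_mul_sum, ← Finset.sum_product']
  apply Finset.sum_congr rfl
  intro ω _
  rw [mul_add, pow_add]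

lemma YY_nonneg (hx : 0 ≤ x) : 0 ≤ YY F g x T := by
  unfold YY
  positivity

lemma inner_ge (hx0 : 0 < x) (hx1 : x ≤ 1) (CR : ℝ) (hCR : ∀ n, (rho F g n : ℝ) ≤ CR) :
    (L : ℝ) * (YY F g x T - L * CR) ≤
      ∑ n ∈ range ((g + 2) * T + 1), x ^ n * ∑ i ∈ range L, x ^ (n + i) * (rho F g (n + i) : ℝ) := by
  set N := (g + 2) * T + 1 with hN
  have hCR0 : 0 ≤ CR := le_trans (Nat.cast_nonneg _) (hCR 0)
  simp_rw [Finset.mul_sum]
  rw [Finset.sum_comm]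
  have key : ∀ i ∈ range L, YY F g x T - L * CR ≤
      ∑ n ∈ range N, x ^ n * (x ^ (n + i) * (rho F g (n + i) : ℝ)) := by
    intro i hi
    rw [Finset.mem_range] at hi
    have h1 : ∑ n ∈ range N, (rho F g (n + i) : ℝ) * x ^ (2 * (n + i)) ≤
        ∑ n ∈ range N, x ^ n * (x ^ (n + i) * (rho F g (n + i) : ℝ)) := by
      apply Finset.sum_le_sum
      intro n _
      rw [← mul_assoc, ← pow_add, mul_comm]
      apply mul_le_mul_of_nonneg_right _ (Nat.cast_nonneg _)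
      exact pow_le_pow_of_le_one hx0.le hx1 (by omega)
    have h2 : ∑ n ∈ range N, (rho F g (n + i) : ℝ) * x ^ (2 * (n + i))
        = ∑ m ∈ Finset.Ico i (N + i), (rho F g m : ℝ) * x ^ (2 * m) := by
      rw [Finset.sum_Ico_eq_sum_range]
      have : N + i - i = N := by omega
      rw [this]
      apply Finset.sum_congr rfl
      intro n _
      rw [add_comm i n]
    have h3 : YY F g x T ≤ ∑ m ∈ range i, (rho F g m : ℝ) * x ^ (2 * m)
        + ∑ m ∈ Finset.Ico i (N + i), (rho F g m : ℝ) * x ^ (2 * m) := by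
      rw [Finset.range_eq_Ico, Finset.sum_Ico_consecutive _ (Nat.zero_le _) (by omega),
        ← Finset.range_eq_Ico]
      unfold YY
      apply Finset.sum_le_sum_of_subset_of_nonneg
      · exact Finset.range_subset_range.2 (by omega)
      · intro m _ _
        positivity
    have h4 : ∑ m ∈ range i, (rho F g m : ℝ) * x ^ (2 * m) ≤ L * CR := by
      calc ∑ m ∈ range i, (rho F g m : ℝ) * x ^ (2 * m) ≤ ∑ m ∈ range i, CR := by
            apply Finset.sum_le_sum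
            intro m _
            calc (rho F g m : ℝ) * x ^ (2 * m) ≤ CR * 1 := by
                  apply mul_le_mul (hCR m) (pow_le_one₀ hx0.le hx1) (by positivity) hCR0
              _ = CR := mul_one _
        _ = i * CR := by rw [Finset.sum_const, card_range, nsmul_eq_mul]
        _ ≤ L * CR := by
            apply mul_le_mul_of_nonneg_right _ hCR0
            exact_mod_cast hi.le
    linarith
  calc (L : ℝ) * (YY F g x T - L * CR) = ∑ i ∈ range L, (YY F g x T - L * CR) := by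
        rw [Finset.sum_const, card_range, nsmul_eq_mul]
    _ ≤ _ := Finset.sum_le_sum key

lemma star_alg (P0 G0 Eg Y R2 V xL Lr W η ε y : ℝ) (hP0 : 0 ≤ P0) (hG : 0 ≤ G0)
    (hEg : 0 ≤ Eg)
    (h1 : xL * (Lr ^ 2 * ((P0 - G0) ^ 2 * Eg)) - 2 * (Lr * W * P0 * ((P0 - G0) * Eg))
      ≤ xL * (Lr ^ 2 * R2 - V))
    (h8 : Lr ^ 2 * y ≤ V)
    (h9 : (G0 + 1) * Y ≤ P0 * (P0 * Eg))
    (hη0 : 0 ≤ η) (hη1 : η ≤ 1) (hη : G0 ≤ η * P0) (hL0 : 0 < Lr)
    (hxL0 : 0 < xL) (hxL : 1 / 2 ≤ xL) (hWε : 4 * W ≤ ε * Lr) (hε : ε ≤ (1 - η) ^ 2)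
    (hW0 : 0 ≤ W) :
    (G0 + 1) * ((1 - η) ^ 2 - ε) * Y ≤ R2 - y := by
  obtain ⟨E, hE⟩ : ∃ E, E = P0 * (P0 * Eg) := ⟨_, rfl⟩
  have hE0 : 0 ≤ E := by rw [hE]; positivity
  have h10 : (1 - η) ^ 2 * E ≤ (P0 - G0) ^ 2 * Eg := by
    have : (1 - η) * P0 ≤ P0 - G0 := by linarith
    have h' : ((1 - η) * P0) ^ 2 ≤ (P0 - G0) ^ 2 :=
      pow_le_pow_left₀ (mul_nonneg (by linarith) hP0) this 2
    calc (1 - η) ^ 2 * E = ((1 - η) * P0) ^ 2 * Eg := by rw [hE]; ring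
      _ ≤ (P0 - G0) ^ 2 * Eg := mul_le_mul_of_nonneg_right h' hEg
  have h11 : P0 * ((P0 - G0) * Eg) ≤ E := by
    rw [hE]
    apply mul_le_mul_of_nonneg_left _ hP0
    apply mul_le_mul_of_nonneg_right _ hEg
    linarith
  have a1 : xL * (Lr ^ 2 * ((1 - η) ^ 2 * E)) ≤ xL * (Lr ^ 2 * ((P0 - G0) ^ 2 * Eg)) := by
    apply mul_le_mul_of_nonneg_left _ hxL0.le
    apply mul_le_mul_of_nonneg_left h10 (by positivity)
  have a2 : 2 * (Lr * W * P0 * ((P0 - G0) * Eg)) ≤ 2 * (Lr * W * E) := by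
    have := mul_le_mul_of_nonneg_left h11 (mul_nonneg hL0.le hW0)
    calc 2 * (Lr * W * P0 * ((P0 - G0) * Eg)) = 2 * (Lr * W * (P0 * ((P0 - G0) * Eg))) := by ring
      _ ≤ 2 * (Lr * W * E) := by linarith
  have a3 : 2 * (Lr * W * E) ≤ xL * (Lr ^ 2 * ε * E) := by
    have b1 : 2 * W ≤ (1 / 2) * (ε * Lr) := by linarith
    have b2 : 0 ≤ ε * Lr := by linarith
    have b3 : 2 * W ≤ xL * (ε * Lr) := by
      have := mul_le_mul_of_nonneg_right hxL b2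
      linarith
    have b4 := mul_le_mul_of_nonneg_left b3 (mul_nonneg hL0.le hE0)
    calc 2 * (Lr * W * E) = Lr * E * (2 * W) := by ring
      _ ≤ Lr * E * (xL * (ε * Lr)) := b4
      _ = xL * (Lr ^ 2 * ε * E) := by ring
  have h12 : xL * (Lr ^ 2 * ((1 - η) ^ 2 - ε) * E) ≤ xL * (Lr ^ 2 * R2 - V) := by
    have : xL * (Lr ^ 2 * ((1 - η) ^ 2 - ε) * E)
        = xL * (Lr ^ 2 * ((1 - η) ^ 2 * E)) - xL * (Lr ^ 2 * ε * E) := by ring
    rw [this]
    linarith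
  have h13 : Lr ^ 2 * ((1 - η) ^ 2 - ε) * E ≤ Lr ^ 2 * R2 - V := le_of_mul_le_mul_left h12 hxL0
  have h14 : Lr ^ 2 * ((1 - η) ^ 2 - ε) * ((G0 + 1) * Y) ≤ Lr ^ 2 * ((1 - η) ^ 2 - ε) * E := by
    apply mul_le_mul_of_nonneg_left (by rw [hE]; exact h9)
    exact mul_nonneg (by positivity) (by linarith)
  have h16 : Lr ^ 2 * ((G0 + 1) * ((1 - η) ^ 2 - ε) * Y) ≤ Lr ^ 2 * (R2 - y) := by
    calc Lr ^ 2 * ((G0 + 1) * ((1 - η) ^ 2 - ε) * Y)
        = Lr ^ 2 * ((1 - η) ^ 2 - ε) * ((G0 + 1) * Y) := by ring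
      _ ≤ Lr ^ 2 * R2 - V := h14.trans h13
      _ ≤ Lr ^ 2 * (R2 - y) := by linarith
  exact le_of_mul_le_mul_left h16 (by positivity)

/-- The main inequality. -/
theorem star (hx0 : 0 < x) (hx1 : x < 1) (hT : ∀ a ∈ F, a ≤ T) (CR W η ε : ℝ)
    (hCR : ∀ n, (rho F g n : ℝ) ≤ CR)
    (hW : ∀ y i, (((F.powersetCard (g + 1)).filter
      (fun S => y ≤ ∑ a ∈ S, a + i ∧ ∑ a ∈ S, a + i < y + L)).card : ℝ) ≤ W)
    (hη0 : 0 ≤ η) (hη1 : η ≤ 1) (hη : (g : ℝ) ≤ η * pp F x) (hL : 0 < L)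
    (hxL : 1 / 2 ≤ x ^ L) (hWε : 4 * W ≤ ε * L) (hε : ε ≤ (1 - η) ^ 2)
    (hY : L * CR ≤ YY F g x T) :
    (g + 1 : ℝ) * ((1 - η) ^ 2 - ε) * YY F g x T ≤
      ∑ n ∈ range ((g + 2) * T + 1), x ^ (2 * n) * (rho F g n : ℝ) ^ 2
        - (1 - x ^ 2) * (YY F g x T - L * CR) ^ 2 := by
  set B := (g + 2) * T + 2 * L + 1 with hBdef
  have : NeZero B := ⟨by omega⟩
  have hB : (g + 2) * T + 2 * L < B := by omega
  have hpp0 : 0 ≤ pp F x := by unfold pp; positivity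
  have hpp : (g : ℝ) ≤ pp F x := by nlinarith
  have hee := ee_nonneg F x hx0.le g
  have h1 := energy_s (F := F) (g := g) (L := L) hx0 hx1.le hT hB W hW hpp
  rw [← sq_Rs, ← win_Rs, sum_Rf_sq hT (by omega)] at h1
  -- Cauchy–Schwarz
  have h2 := win_Rf_ge (F := F) (g := g) (x := x) (L := L) hT hB
  have h3 := inner_ge (F := F) (g := g) (T := T) (L := L) hx0 hx1.le CR hCR
  set N := (g + 2) * T + 1 with hN
  set v : ℕ → ℝ := fun n => ∑ i ∈ range L, x ^ (n + i) * (rho F g (n + i) : ℝ) with hv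
  have h4 : (∑ n ∈ range N, x ^ n * v n) ^ 2 ≤ (∑ n ∈ range N, (x ^ n) ^ 2) * ∑ n ∈ range N, (v n) ^ 2 :=
    Finset.sum_mul_sq_le_sq_mul_sq _ _ _
  have hx2 : 0 < 1 - x ^ 2 := by nlinarith
  have h5 : ∑ n ∈ range N, (x ^ n) ^ 2 ≤ (1 - x ^ 2)⁻¹ := by
    have := geom_le x hx0 hx1 N
    refine le_trans (le_of_eq ?_) this
    apply Finset.sum_congr rfl
    intro n _
    rw [← pow_mul, mul_comm]
  have hv2 : 0 ≤ ∑ n ∈ range N, (v n) ^ 2 := Finset.sum_nonneg (fun n _ => sq_nonneg _)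
  have h6 : (1 - x ^ 2) * (∑ n ∈ range N, x ^ n * v n) ^ 2 ≤ ∑ n ∈ range N, (v n) ^ 2 := by
    calc (1 - x ^ 2) * (∑ n ∈ range N, x ^ n * v n) ^ 2
        ≤ (1 - x ^ 2) * ((1 - x ^ 2)⁻¹ * ∑ n ∈ range N, (v n) ^ 2) := by
          apply mul_le_mul_of_nonneg_left _ hx2.le
          exact h4.trans (mul_le_mul_of_nonneg_right h5 hv2)
      _ = ∑ n ∈ range N, (v n) ^ 2 := by
          rw [← mul_assoc, mul_inv_cancel₀ hx2.ne', one_mul]
  have hL0 : (0 : ℝ) < L := by exact_mod_cast hL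
  have h7 : ((L : ℝ) * (YY F g x T - L * CR)) ^ 2 ≤ (∑ n ∈ range N, x ^ n * v n) ^ 2 := by
    apply pow_le_pow_left₀ _ h3
    exact mul_nonneg hL0.le (by linarith)
  have h8 : (L : ℝ) ^ 2 * ((1 - x ^ 2) * (YY F g x T - L * CR) ^ 2) ≤
      ∑ k, (∑ i ∈ range L, Rf F g x B (k + (i : ZMod B))) ^ 2 := by
    have := mul_le_mul_of_nonneg_left h7 hx2.le
    rw [mul_pow] at this
    linarith
  -- lower bound of the left hand side of h1
  have h9 : (g + 1 : ℝ) * YY F g x T ≤ pp F x * (pp F x * ee F x g) := by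
    rw [YY_eq hT]
    have := ee_succ_le F x hx0.le g
    calc (g + 1 : ℝ) * (pp F x * ee F x (g + 1)) = pp F x * ((g + 1 : ℝ) * ee F x (g + 1)) := by ring
      _ ≤ pp F x * (pp F x * ee F x g) := mul_le_mul_of_nonneg_left this hpp0
  have hxL0 : 0 < x ^ L := by positivity
  have hW0 : 0 ≤ W := le_trans (Nat.cast_nonneg _) (hW 0 0)
  exact star_alg (pp F x) g (ee F x g) (YY F g x T) _ _ (x ^ L) L W η ε _ hpp0 (Nat.cast_nonneg _)
    hee h1 h8 h9 hη0 hη1 hη hL0 hxL0 hxL hWε hε hW0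

end Pool.Agent.H396R2
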