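import Pool.Agent.H308R2.ZS.Stubs

/-! Task BETA of project ZS (helper308): the decomposition of reduced words. -/

set_option autoImplicit false

open scoped ComplexConjugate Kronecker Matrix.Norms.L2Operator

namespace Pool.Agent.H308R2.ZS.T_BETA

open Pool.Agent.H923R2.FP Pool.Agent.H923R2.FZ Pool.Agent.H308R2.ZS

open Classical in
/-- the inverse of the decomposition -/
noncomputable def glue {J : Type} (ι : J → Type) (o : ∀ j, ι j) (j : J)
    (p : ι j × {w : Wd ι o // NH j w}) : Wd ι o :=
  if h : p.1 = o j then p.2.1 else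
    ⟨⟨j, p.1⟩ :: p.2.1.1, by
      refine ⟨?_, ?_⟩
      · intro z hz
        rcases List.mem_cons.1 hz with h1 | h1
        · subst h1; exact h
        · exact p.2.1.2.1 z h1
      · rw [List.isChain_cons]
        exact ⟨fun y hy => fun he => p.2.2 y hy he.symm, p.2.1.2.2⟩⟩

theorem glue_o {J : Type} (ι : J → Type) (o : ∀ j, ι j) (j : J)
    (k : {w : Wd ι o // NH j w}) : glue ι o j (o j, k) = k.1 := by
  simp [glue]

theorem glue_ne {J : Type} (ι : J → Type) (o : ∀ j, ι j) (j : J) (a : ι j) (ha : a ≠ o j)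
    (k : {w : Wd ι o // NH j w}) : (glue ι o j (a, k)).1 = ⟨j, a⟩ :: k.1.1 := by
  simp [glue, ha]

theorem glue_bij {J : Type} (ι : J → Type) (o : ∀ j, ι j) (j : J) :
    Function.Bijective (glue ι o j) := by
  constructor
  · rintro ⟨a, k⟩ ⟨a', k'⟩ h
    have h1 : (glue ι o j (a, k)).1 = (glue ι o j (a', k')).1 := by rw [h]
    by_cases ha : a = o j
    · by_cases ha' : a' = o j
      · subst ha; subst ha'
        rw [glue_o, glue_o] at h
        rw [Subtype.ext h]
      · exfalso
        subst ha
        rw [glue_o, glue_ne ι o j a' ha'] at h1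
        refine k.2 ⟨j, a'⟩ ?_ rfl
        rw [h1]; simp
    · by_cases ha' : a' = o j
      · exfalso
        subst ha'
        rw [glue_o, glue_ne ι o j a ha] at h1
        refine k'.2 ⟨j, a⟩ ?_ rfl
        rw [← h1]; simp
      · rw [glue_ne ι o j a ha, glue_ne ι o j a' ha'] at h1
        injection h1 with h2 h3
        have h4 : a = a' := by
          injection h2 with _ h5
        have h6 : k = k' := Subtype.ext (Subtype.ext h3)
        rw [h4, h6]
  · rintro ⟨l, hl⟩
    cases l with
    | nil =>
      refine ⟨(o j, ⟨⟨[], hl⟩, ?_⟩), ?_⟩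
      · intro z hz; simp at hz
      · rw [glue_o]
    | cons z l =>
      obtain ⟨i, a⟩ := z
      by_cases hi : i = j
      · subst hi
        have hc := hl.2
        rw [List.isChain_cons] at hc
        have ha : a ≠ o i := hl.1 ⟨i, a⟩ (by simp)
        refine ⟨(a, ⟨⟨l, fun z hz => hl.1 z (List.mem_cons_of_mem _ hz), hc.2⟩, ?_⟩), ?_⟩
        · intro z hz he
          exact hc.1 z hz he.symm
        · apply Subtype.ext
          rw [glue_ne _ _ _ _ ha]
      · refine ⟨(o j, ⟨⟨⟨i, a⟩ :: l, hl⟩, ?_⟩), ?_⟩
        · intro z hz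
          simp at hz
          subst hz
          exact hi
        · rw [glue_o]

theorem t_BETA : S_BETA := by
  intro J ι o j
  refine ⟨(Equiv.ofBijective (glue ι o j) (glue_bij ι o j)).symm, ?_, ?_⟩
  · intro k
    exact glue_o ι o j k
  · intro a ha k
    exact glue_ne ι o j a ha k

end Pool.Agent.H308R2.ZS.T_BETA
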